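import Pool.Agent.TH706.ST.Cnf

/-!
# Functions of low degree of the right hand sides of a sparse expanding system
-/

set_option autoImplicit false
set_option linter.unusedSectionVars false

namespace Pool.Agent.Y602.QS

open Finset Module
open Pool.Agent.TH706.ST

/-- The sign of a bit. -/
def sg (b : Bool) : ℝ := if b then -1 else 1

theorem sg_mul_self (b : Bool) : sg b * sg b = 1 := by cases b <;> norm_num [sg]

theorem sg_abs (b : Bool) : |sg b| = 1 := by cases b <;> norm_num [sg]

theorem sg_xor (a b : Bool) : sg (xor a b) = sg a * sg b := by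
  cases a <;> cases b <;> norm_num [sg]

section low

variable {R : Type} [Fintype R] [DecidableEq R]

/-- Characters, real version. -/
noncomputable def chr (w : Finset R) (z : R → Bool) : ℝ := ∏ r ∈ w, sg (z r)

/-- Characters. -/
noncomputable def chi (w : Finset R) (z : R → Bool) : ℂ := ((chr w z : ℝ) : ℂ)

theorem chi_eq (w : Finset R) (z : R → Bool) : chi w z = ∏ r ∈ w, (sg (z r) : ℂ) := by
  unfold chi chr
  push_cast
  rfl

theorem abs_chr (w : Finset R) (z : R → Bool) : |chr w z| = 1 := by
  unfold chr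
  rw [Finset.abs_prod]
  simp [sg_abs]

/-- Functions of degree at most `d`. -/
noncomputable def Low (R : Type) [Fintype R] [DecidableEq R] (d : ℕ) :
    Submodule ℂ ((R → Bool) → ℂ) :=
  Submodule.span ℂ {f | ∃ w : Finset R, #w ≤ d ∧ f = chi w}

theorem chi_mem {w : Finset R} {d : ℕ} (h : #w ≤ d) : chi w ∈ Low R d :=
  Submodule.subset_span ⟨w, h, rfl⟩

theorem low_mono {d d' : ℕ} (h : d ≤ d') : Low R d ≤ Low R d' := by
  apply Submodule.span_mono
  rintro f ⟨w, hw, rfl⟩
  exact ⟨w, hw.trans h, rfl⟩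

theorem const_mem (c : ℂ) (d : ℕ) : (fun _ => c) ∈ Low R d := by
  have h : (fun _ => c) = c • chi (∅ : Finset R) := by
    funext y
    simp [chi, chr]
  rw [h]
  exact Submodule.smul_mem _ _ (chi_mem (by simp))

theorem sg_mul_mem (j : R) {d : ℕ} {f : (R → Bool) → ℂ} (hf : f ∈ Low R d) :
    (fun y => (sg (y j) : ℂ) * f y) ∈ Low R (d + 1) := by
  classical
  induction hf using Submodule.span_induction with
  | mem f hf =>
    obtain ⟨w, hw, rfl⟩ := hf
    by_cases hj : j ∈ w
    · have h : (fun y => (sg (y j) : ℂ) * chi w y) = chi (w.erase j) := by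
        funext y
        rw [chi_eq, chi_eq, ← Finset.mul_prod_erase w _ hj, ← mul_assoc]
        have := sg_mul_self (y j)
        have h2 : (sg (y j) : ℂ) * (sg (y j) : ℂ) = 1 := by exact_mod_cast this
        rw [h2, one_mul]
      rw [h]
      exact chi_mem ((card_erase_le).trans (by omega))
    · have h : (fun y => (sg (y j) : ℂ) * chi w y) = chi (insert j w) := by
        funext y
        rw [chi_eq, chi_eq, prod_insert hj]
      rw [h]
      exact chi_mem ((card_insert_le _ _).trans (by omega))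
  | zero =>
    have : (fun y : R → Bool => (sg (y j) : ℂ) * (0 : (R → Bool) → ℂ) y) = 0 := by
      funext y; simp
    rw [this]
    exact Submodule.zero_mem _
  | add f f' _ _ hf hf' =>
    have : (fun y : R → Bool => (sg (y j) : ℂ) * (f + f') y) =
        (fun y => (sg (y j) : ℂ) * f y) + fun y => (sg (y j) : ℂ) * f' y := by
      funext y; simp [mul_add]
    rw [this]
    exact Submodule.add_mem _ hf hf'
  | smul c f _ hf =>
    have : (fun y : R → Bool => (sg (y j) : ℂ) * (c • f) y) =
        c • (fun y => (sg (y j) : ℂ) * f y) := by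
      funext y; simp only [Pi.smul_apply, smul_eq_mul]; ring
    rw [this]
    exact Submodule.smul_mem _ _ hf

theorem chi_mul_mem (w : Finset R) {d : ℕ} {f : (R → Bool) → ℂ} (hf : f ∈ Low R d) :
    (fun y => chi w y * f y) ∈ Low R (d + #w) := by
  classical
  induction w using Finset.induction_on with
  | empty => simpa [chi, chr] using hf
  | insert j w hj ih =>
    rw [card_insert_of_notMem hj, ← add_assoc]
    have h : (fun y => chi (insert j w) y * f y) = fun y => (sg (y j) : ℂ) * (chi w y * f y) := by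
      funext y
      rw [chi_eq, chi_eq, prod_insert hj, mul_assoc]
    rw [h]
    exact sg_mul_mem j ih

theorem mul_mem {d d' : ℕ} {f f' : (R → Bool) → ℂ} (hf : f ∈ Low R d) (hf' : f' ∈ Low R d') :
    (fun y => f' y * f y) ∈ Low R (d + d') := by
  classical
  induction hf' using Submodule.span_induction with
  | mem f' hf' =>
    obtain ⟨w, hw, rfl⟩ := hf'
    exact low_mono (by omega) (chi_mul_mem w hf)
  | zero =>
    have : (fun y : R → Bool => (0 : (R → Bool) → ℂ) y * f y) = 0 := by
      funext y; simp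
    rw [this]
    exact Submodule.zero_mem _
  | add g g' _ _ hg hg' =>
    have : (fun y : R → Bool => (g + g') y * f y) =
        (fun y => g y * f y) + fun y => g' y * f y := by
      funext y; simp [add_mul]
    rw [this]
    exact Submodule.add_mem _ hg hg'
  | smul c g _ hg =>
    have : (fun y : R → Bool => (c • g) y * f y) = c • (fun y => g y * f y) := by
      funext y; simp only [Pi.smul_apply, smul_eq_mul]; ring
    rw [this]
    exact Submodule.smul_mem _ _ hg

theorem conj_mem {d : ℕ} {f : (R → Bool) → ℂ} (hf : f ∈ Low R d) :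
    (fun y => (starRingEnd ℂ) (f y)) ∈ Low R d := by
  induction hf using Submodule.span_induction with
  | mem f hf =>
    obtain ⟨w, hw, rfl⟩ := hf
    have : (fun y => (starRingEnd ℂ) (chi w y)) = chi w := by
      funext y
      unfold chi
      simp
    rw [this]
    exact chi_mem hw
  | zero =>
    have : (fun y => (starRingEnd ℂ) ((0 : (R → Bool) → ℂ) y)) = 0 := by
      funext y; simp
    rw [this]
    exact Submodule.zero_mem _
  | add g g' _ _ hg hg' =>
    have : (fun y => (starRingEnd ℂ) ((g + g') y)) =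
        (fun y => (starRingEnd ℂ) (g y)) + fun y => (starRingEnd ℂ) (g' y) := by
      funext y; simp
    rw [this]
    exact Submodule.add_mem _ hg hg'
  | smul c g _ hg =>
    have : (fun y => (starRingEnd ℂ) ((c • g) y)) =
        (starRingEnd ℂ) c • (fun y => (starRingEnd ℂ) (g y)) := by
      funext y; simp
    rw [this]
    exact Submodule.smul_mem _ _ hg

theorem normSq_mem {d : ℕ} {f : (R → Bool) → ℂ} (hf : f ∈ Low R d) :
    (fun y => ((‖f y‖ ^ 2 : ℝ) : ℂ)) ∈ Low R (2 * d) := by
  have h : (fun y => ((‖f y‖ ^ 2 : ℝ) : ℂ)) = fun y => (starRingEnd ℂ) (f y) * f y := by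
    funext y
    rw [Complex.conj_mul']
    push_cast
    rfl
  rw [h, two_mul]
  exact mul_mem hf (conj_mem hf)

theorem sum_chi_mul (u w : Finset R) :
    ∑ z : R → Bool, chi u z * chi w z = if u = w then 2 ^ Fintype.card R else 0 := by
  have h1 : ∀ z : R → Bool, chi u z * chi w z =
      ∏ r, ((if r ∈ u then (sg (z r) : ℂ) else 1) * (if r ∈ w then (sg (z r) : ℂ) else 1)) := by
    intro z
    rw [prod_mul_distrib, chi_eq, chi_eq, prod_ite_mem, prod_ite_mem, univ_inter, univ_inter]
  simp only [h1]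
  have h2 := Finset.prod_univ_sum (fun _ : R => (univ : Finset Bool))
    (fun r b => ((if r ∈ u then (sg b : ℂ) else 1) * (if r ∈ w then (sg b : ℂ) else 1)))
  rw [Fintype.piFinset_univ] at h2
  rw [← h2]
  have h3 : ∀ r : R, ∑ b : Bool, ((if r ∈ u then (sg b : ℂ) else 1) *
      (if r ∈ w then (sg b : ℂ) else 1)) = if (r ∈ u ↔ r ∈ w) then 2 else 0 := by
    intro r
    rw [Fintype.sum_bool]
    by_cases h : r ∈ u <;> by_cases h' : r ∈ w <;> simp [h, h', sg] <;> norm_num
  simp only [h3]
  by_cases h : u = w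
  · subst h
    simp
  · rw [if_neg h]
    have : ∃ r, ¬ (r ∈ u ↔ r ∈ w) := by
      by_contra hcon
      push Not at hcon
      exact h (Finset.ext hcon)
    obtain ⟨r, hr⟩ := this
    apply prod_eq_zero (mem_univ r)
    rw [if_neg hr]

end low

section sys

variable {n : ℕ}

/-- The right hand sides as bits. -/
noncomputable def rv (h : Sys n) (y : Fin n → ZMod 2) : Row n → Bool := fun r => val (lin h r y)

theorem sg_val_sum {κ : Type} (s : Finset κ) (f : κ → ZMod 2) :
    ∏ r ∈ s, sg (val (f r)) = sg (val (∑ r ∈ s, f r)) := by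
  classical
  induction s using Finset.induction_on with
  | empty =>
    rw [prod_empty, sum_empty]
    unfold TH706.ST.val sg
    simp
  | insert r s hr ih =>
    rw [prod_insert hr, sum_insert hr, val_add, sg_xor, ih]

theorem chr_rv (h : Sys n) (w : Finset (Row n)) (y : Fin n → ZMod 2) :
    chr w (rv h y) = sg (val ((∑ r ∈ w, lin h r) y)) := by
  unfold chr rv
  rw [sg_val_sum, LinearMap.sum_apply]

/-- The assignments that agree with `y₀` on `I`. -/
def cyl (I : Finset (Fin n)) (y₀ : Fin n → ZMod 2) : Finset (Fin n → ZMod 2) :=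
  univ.filter (fun y => ∀ j ∈ I, y j = y₀ j)

theorem mem_cyl (I : Finset (Fin n)) (y₀ y : Fin n → ZMod 2) :
    y ∈ cyl I y₀ ↔ ∀ j ∈ I, y j = y₀ j := by simp [cyl]

theorem card_cyl (I : Finset (Fin n)) (y₀ : Fin n → ZMod 2) : #(cyl I y₀) * 2 ^ #I = 2 ^ n := by
  classical
  have h : cyl I y₀ = Fintype.piFinset (fun i => if i ∈ I then {y₀ i} else univ) := by
    ext x
    simp only [mem_cyl, Fintype.mem_piFinset]
    refine forall_congr' fun i => ?_
    by_cases hi : i ∈ I <;> simp [hi]
  rw [h, Fintype.card_piFinset]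
  have h1 : ∀ i : Fin n, #(if i ∈ I then {y₀ i} else (univ : Finset (ZMod 2))) =
      if i ∈ I then 1 else 2 := by
    intro i
    by_cases hi : i ∈ I
    · simp [hi]
    · simp only [hi, if_false, card_univ, ZMod.card]
  simp only [h1]
  rw [prod_ite]
  simp only [prod_const_one, prod_const, one_mul]
  rw [← pow_add]
  congr 1
  rw [show #I = #(univ.filter (fun i => i ∈ I)) by simp, add_comm]
  rw [Finset.card_filter_add_card_filter_not]
  simp

/-- The character sum over a cylinder vanishes if some unknown outside occurs. -/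
theorem sum_cyl_eq_zero (h : Sys n) (w : Finset (Row n)) (I : Finset (Fin n))
    (y₀ : Fin n → ZMod 2) (j : Fin n) (hj : j ∉ I)
    (hw : (∑ r ∈ w, lin h r) (Pi.single j 1) ≠ 0) :
    ∑ y ∈ cyl I y₀, chr w (rv h y) = 0 := by
  have two : ∀ a : ZMod 2, a ≠ 0 → a = 1 := by decide
  have h1 := two _ hw
  have h2 : (1 : ZMod 2) + 1 = 0 := by decide
  refine Finset.sum_involution (fun y _ => y + Pi.single j 1) ?_ ?_ ?_ ?_
  · intro y _
    rw [chr_rv, chr_rv, map_add, h1]
    have h3 : ∀ a : ZMod 2, sg (val a) + sg (val (a + 1)) = 0 := by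
      intro a
      rw [val_add, sg_xor]
      have : sg (val 1) = -1 := by unfold TH706.ST.val sg; simp
      rw [this]
      ring
    exact h3 _
  · intro y _ _ hcon
    have h4 := congrFun hcon j
    simp at h4
  · intro y hy
    rw [mem_cyl] at hy ⊢
    intro i hi
    rw [Pi.add_apply, hy i hi, Pi.single_apply, if_neg, add_zero]
    rintro rfl
    exact hj hi
  · intro y _
    funext i
    simp only [Pi.add_apply, Pi.single_apply]
    rw [add_assoc]
    split_ifs
    · rw [h2, add_zero]
    · rw [add_zero, add_zero]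

open Classical in
/-- The small sets of equations whose sum involves only unknowns in `I`. -/
noncomputable def WI (h : Sys n) (d : ℕ) (I : Finset (Fin n)) : Finset (Finset (Row n)) :=
  univ.filter (fun w => #w ≤ d ∧ ∀ j, j ∉ I → (∑ r ∈ w, lin h r) (Pi.single j 1) = 0)

theorem mem_WI (h : Sys n) (d : ℕ) (I : Finset (Fin n)) (w : Finset (Row n)) :
    w ∈ WI h d I ↔ #w ≤ d ∧ ∀ j, j ∉ I → (∑ r ∈ w, lin h r) (Pi.single j 1) = 0 := by
  simp [WI]

theorem card_WI_le {h : Sys n} (hE : Expands h) {d e : ℕ} (hd : d * 2 ^ 22 ≤ n) (he : 2 * e ≤ d)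
    {I : Finset (Fin n)} (hI : #I ≤ 3 * e) : #(WI h d I) ≤ 2 ^ (2 * e) := by
  classical
  have small : ∀ A : Finset (Row n), #A ≤ d →
      (∀ j, j ∉ I → (∑ r ∈ A, lin h r) (Pi.single j 1) = 0) → #A ≤ e := by
    intro A hA hj
    have h1 := expands_unique hE A (le_trans (Nat.mul_le_mul_right _ hA) hd)
    have h2 : (univ.filter (fun j => (∑ r ∈ A, lin h r) (Pi.single j 1) ≠ 0)).card ≤ #I := by
      apply card_le_card
      intro j hj'
      by_contra hcon
      exact (mem_filter.1 hj').2 (hj j hcon)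
    omega
  have two : ∀ a : ZMod 2, a ≠ 0 → a = 1 := by decide
  have hsupp : ∀ v : Row n → ZMod 2, ∑ r, v r • lin h r =
      ∑ r ∈ univ.filter (fun r => v r ≠ 0), lin h r := by
    intro v
    rw [sum_filter]
    refine sum_congr rfl fun r _ => ?_
    by_cases hr : v r = 0
    · rw [if_neg (by rw [not_not]; exact hr), hr, zero_smul]
    · rw [if_pos hr, two _ hr, one_smul]
  let V : Submodule (ZMod 2) (Row n → ZMod 2) :=
    { carrier := {v | #(univ.filter (fun r => v r ≠ 0)) ≤ e ∧
        ∀ j, j ∉ I → (∑ r, v r • lin h r) (Pi.single j 1) = 0}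
      add_mem' := by
        rintro a b ⟨ha1, ha2⟩ ⟨hb1, hb2⟩
        have h1 : ∀ j, j ∉ I → (∑ r, (a + b) r • lin h r) (Pi.single j 1) = 0 := by
          intro j hj
          simp only [Pi.add_apply, add_smul, sum_add_distrib, LinearMap.add_apply]
          rw [ha2 j hj, hb2 j hj, add_zero]
        refine ⟨?_, h1⟩
        apply small
        · calc #(univ.filter (fun r => (a + b) r ≠ 0)) ≤
              #(univ.filter (fun r => a r ≠ 0) ∪ univ.filter (fun r => b r ≠ 0)) := by
                apply card_le_card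
                intro r hr
                rw [mem_union, mem_filter, mem_filter]
                by_contra hcon
                push Not at hcon
                have h2 := hcon.1 (mem_univ _)
                have h3 := hcon.2 (mem_univ _)
                apply (mem_filter.1 hr).2
                rw [Pi.add_apply, h2, h3, add_zero]
            _ ≤ _ := card_union_le _ _
            _ ≤ d := by omega
        · intro j hj
          rw [← hsupp]
          exact h1 j hj
      zero_mem' := by
        refine ⟨by simp, ?_⟩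
        intro j _
        simp
      smul_mem' := by
        rintro c v ⟨hv1, hv2⟩
        have hc : c = 0 ∨ c = 1 := by revert c; decide
        rcases hc with rfl | rfl
        · rw [zero_smul]
          refine ⟨by simp, ?_⟩
          intro j _
          simp
        · rw [one_smul]
          exact ⟨hv1, hv2⟩ }
  have hVf : Fintype V := Fintype.ofFinite V
  obtain ⟨v, hv, h3⟩ := exists_heavy V
  have h4 : finrank (ZMod 2) V ≤ 2 * e := h3.trans (Nat.mul_le_mul_left _ hv.1)
  have h5 : Fintype.card V = 2 ^ finrank (ZMod 2) V := by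
    rw [Module.card_eq_pow_finrank (K := ZMod 2) (V := V), ZMod.card]
  have h6 : #(WI h d I) ≤ Fintype.card V := by
    rw [← card_univ]
    have ind : ∀ w ∈ WI h d I, (fun r => if r ∈ w then (1 : ZMod 2) else 0) ∈ V := by
      intro w hw
      rw [mem_WI] at hw
      have e1 : univ.filter (fun r => (if r ∈ w then (1 : ZMod 2) else 0) ≠ 0) = w := by
        ext r
        by_cases hr : r ∈ w <;> simp [hr]
      refine ⟨?_, ?_⟩
      · rw [e1]
        exact small w hw.1 hw.2
      · intro j hj
        rw [hsupp, e1]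
        exact hw.2 j hj
    refine card_le_card_of_injOn
      (fun w => if hw : w ∈ WI h d I then (⟨_, ind w hw⟩ : V) else 0)
      (fun w _ => mem_univ _) ?_
    intro w hw w' hw' heq
    have hw1 : w ∈ WI h d I := hw
    have hw2 : w' ∈ WI h d I := hw'
    simp only [dif_pos hw1, dif_pos hw2] at heq
    have h7 := congrArg Subtype.val heq
    ext r
    have h8 := congrFun h7 r
    simp only at h8
    by_cases hr : r ∈ w <;> by_cases hr' : r ∈ w' <;> simp [hr, hr'] at h8 ⊢
  calc #(WI h d I) ≤ Fintype.card V := h6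
    _ = 2 ^ finrank (ZMod 2) V := h5
    _ ≤ 2 ^ (2 * e) := Nat.pow_le_pow_right (by norm_num) h4

/-- The density. -/
noncomputable def dens (h : Sys n) (d : ℕ) (I : Finset (Fin n)) (y₀ : Fin n → ZMod 2)
    (z : Row n → Bool) : ℝ :=
  ∑ w ∈ WI h d I, (∑ y ∈ cyl I y₀, chr w (rv h y)) * chr w z

theorem dens_le (h : Sys n) (d : ℕ) (I : Finset (Fin n)) (y₀ : Fin n → ZMod 2)
    (z : Row n → Bool) : dens h d I y₀ z ≤ #(WI h d I) * #(cyl I y₀) := by
  unfold dens
  rw [← nsmul_eq_mul, ← sum_const]
  apply sum_le_sum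
  intro w _
  refine (le_abs_self _).trans ?_
  rw [abs_mul, abs_chr, mul_one]
  refine (abs_sum_le_sum_abs _ _).trans ?_
  simp only [abs_chr, sum_const, nsmul_eq_mul, mul_one, le_refl]

theorem functionals (h : Sys n) (d : ℕ) (I : Finset (Fin n)) (y₀ : Fin n → ZMod 2)
    (f : (Row n → Bool) → ℂ) (hf : f ∈ Low (Row n) d) :
    ∑ z : Row n → Bool, f z * (dens h d I y₀ z : ℂ) =
      2 ^ Fintype.card (Row n) * ∑ y ∈ cyl I y₀, f (rv h y) := by
  classical
  induction hf using Submodule.span_induction with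
  | mem f hf =>
    obtain ⟨u, hu, rfl⟩ := hf
    have h1 : ∀ z : Row n → Bool, chi u z * (dens h d I y₀ z : ℂ) =
        ∑ w ∈ WI h d I, ((∑ y ∈ cyl I y₀, chr w (rv h y) : ℝ) : ℂ) * (chi u z * chi w z) := by
      intro z
      unfold dens chi
      push_cast
      rw [mul_sum]
      exact sum_congr rfl fun w _ => by ring
    simp only [h1]
    rw [sum_comm]
    simp only [← mul_sum, sum_chi_mul]
    have h2 : ∑ y ∈ cyl I y₀, chi u (rv h y) =
        ((∑ y ∈ cyl I y₀, chr u (rv h y) : ℝ) : ℂ) := by
      unfold chi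
      push_cast
      rfl
    rw [h2]
    by_cases hw : u ∈ WI h d I
    · rw [sum_eq_single u]
      · rw [if_pos rfl]; ring
      · intro w _ hne
        rw [if_neg (Ne.symm hne), mul_zero]
      · intro hcon; exact absurd hw hcon
    · have h3 : ∃ j, j ∉ I ∧ (∑ r ∈ u, lin h r) (Pi.single j 1) ≠ 0 := by
        by_contra hcon
        push Not at hcon
        exact hw ((mem_WI _ _ _ _).2 ⟨hu, hcon⟩)
      obtain ⟨j, hj, hj'⟩ := h3
      rw [sum_cyl_eq_zero h u I y₀ j hj hj']
      rw [sum_eq_zero]
      · simp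
      · intro w hw'
        rw [if_neg, mul_zero]
        rintro rfl
        exact hw hw'
  | zero => simp
  | add f f' _ _ hf hf' =>
    simp only [Pi.add_apply, add_mul, sum_add_distrib, mul_add, hf, hf']
  | smul c f _ hf =>
    simp only [Pi.smul_apply, smul_eq_mul, mul_assoc, ← mul_sum, hf]
    ring

/-- **The bound for functions of low degree.** -/
theorem low_bound {h : Sys n} (hE : Expands h) {D e : ℕ} (hD : 2 * D * 2 ^ 22 ≤ n) (he : e ≤ D)
    {I : Finset (Fin n)} (hI : #I = 3 * e) (y₀ : Fin n → ZMod 2) (p : (Row n → Bool) → ℂ)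
    (hp : p ∈ Low (Row n) D) :
    (∑ y ∈ cyl I y₀, ‖p (rv h y)‖ ^ 2) * (2 ^ Fintype.card (Row n) * 2 ^ e) ≤
      2 ^ n * ∑ z, ‖p z‖ ^ 2 := by
  have h1 := functionals h (2 * D) I y₀ _ (normSq_mem hp)
  have h2 : ∑ z : Row n → Bool, ‖p z‖ ^ 2 * dens h (2 * D) I y₀ z =
      2 ^ Fintype.card (Row n) * ∑ y ∈ cyl I y₀, ‖p (rv h y)‖ ^ 2 := by
    exact_mod_cast h1
  have h0 := card_WI_le hE hD (by omega) hI.le
  have h3 : 2 ^ Fintype.card (Row n) * ∑ y ∈ cyl I y₀, ‖p (rv h y)‖ ^ 2 ≤
      (∑ z : Row n → Bool, ‖p z‖ ^ 2) * (2 ^ (2 * e) * #(cyl I y₀)) := by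
    rw [← h2, sum_mul]
    apply sum_le_sum
    intro z _
    apply mul_le_mul_of_nonneg_left _ (by positivity)
    refine (dens_le h _ I y₀ z).trans ?_
    apply mul_le_mul_of_nonneg_right _ (Nat.cast_nonneg _)
    exact_mod_cast h0
  have h4 : (#(cyl I y₀) : ℝ) * 2 ^ (3 * e) = 2 ^ n := by
    have := card_cyl I y₀
    rw [hI] at this
    exact_mod_cast this
  calc (∑ y ∈ cyl I y₀, ‖p (rv h y)‖ ^ 2) * (2 ^ Fintype.card (Row n) * 2 ^ e)
      = (2 ^ Fintype.card (Row n) * ∑ y ∈ cyl I y₀, ‖p (rv h y)‖ ^ 2) * 2 ^ e := by ring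
    _ ≤ ((∑ z : Row n → Bool, ‖p z‖ ^ 2) * (2 ^ (2 * e) * #(cyl I y₀))) * 2 ^ e :=
        mul_le_mul_of_nonneg_right h3 (by positivity)
    _ = (#(cyl I y₀) * 2 ^ (3 * e)) * (∑ z, ‖p z‖ ^ 2) := by
        rw [show 3 * e = 2 * e + e by ring, pow_add]; ring
    _ = 2 ^ n * ∑ z, ‖p z‖ ^ 2 := by rw [h4]

end sys

end Pool.Agent.Y602.QS
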