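import Pool.Agent.Y602.QS.Piece
import Pool.Agent.Y602.QS.Low

/-!
# The probability of one class of pieces
-/

set_option autoImplicit false
set_option linter.unusedSectionVars false

namespace Pool.Agent.Y602.QS

open Finset
open scoped Matrix
open Pool.Agent.TH706.ST

/-- The input in terms of the right hand sides. -/
def inp {ι R : Type} (κ : ι → Option R) (c : ι → Bool) (z : R → Bool) (i : ι) : Bool :=
  match κ i with
  | none => c i
  | some r => xor (c i) (z r)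

theorem sg_smul_low {R : Type} [Fintype R] [DecidableEq R] (b : Bool) {d : ℕ}
    {v : (R → Bool) → ℂ} (hv : v ∈ Low R d) :
    (fun z => if b = true then - v z else v z) ∈ Low R d := by
  cases b with
  | false => simpa using hv
  | true =>
    have h : (fun z => if true = true then - v z else v z) = - v := by
      funext y; simp
    rw [h]
    exact Submodule.neg_mem _ hv

section

variable {n : ℕ} {ι ω : Type} (P : QM ι ω) (κ : ι → Option (Row n)) (c : ι → Bool)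

theorem ask_low (t : ℕ) (q : P.Node) (d : ℕ) (v : (Row n → Bool) → P.Reg → ℂ)
    (hv : ∀ s, (fun z => v z s) ∈ Low (Row n) d) (s : P.Reg) :
    (fun z => P.ask (inp κ c z) t q (v z) s) ∈ Low (Row n) (d + P.cost t q) := by
  unfold QM.ask QM.cost
  cases hq : P.query t q with
  | none => simpa using hv s
  | some f =>
    simp only [Option.isSome_some, if_true]
    cases hf : f s with
    | none => simpa using low_mono (by omega) (hv s)
    | some i =>
      simp only [inp]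
      rcases Option.eq_none_or_eq_some (κ i) with hk | ⟨r, hk⟩
      · simp only [hk]
        exact sg_smul_low (c i) (low_mono (by omega) (hv s))
      · simp only [hk]
        have h : (fun z : Row n → Bool => if xor (c i) (z r) = true then - v z s else v z s) =
            fun z => if c i = true then - ((sg (z r) : ℂ) * v z s) else (sg (z r) : ℂ) * v z s := by
          funext z
          cases c i <;> cases z r <;> simp [sg]
        rw [h]
        exact sg_smul_low (c i) (sg_mul_mem r (hv s))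

theorem mulVec_low {σ : Type} [Fintype σ] (A : Matrix σ σ ℂ) (d : ℕ)
    (v : (Row n → Bool) → σ → ℂ) (hv : ∀ s, (fun z => v z s) ∈ Low (Row n) d) (s : σ) :
    (fun z => (A.mulVec (v z)) s) ∈ Low (Row n) d := by
  have h : (fun z => (A.mulVec (v z)) s) = ∑ s', A s s' • fun z => v z s' := by
    funext z
    simp [Matrix.mulVec, dotProduct]
  rw [h]
  exact Submodule.sum_mem _ fun s' _ => Submodule.smul_mem _ _ (hv s')

theorem amp_low : ∀ (l : List P.Out) (t : ℕ) (q : P.Node) (τ : List P.Sym) (d : ℕ)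
    (v : (Row n → Bool) → P.Reg → ℂ) (_ : ∀ s, (fun z => v z s) ∈ Low (Row n) d) (s : P.Reg),
    (fun z => P.amp (inp κ c z) t q τ (v z) l s) ∈ Low (Row n) (d + P.cst t q τ l)
  | [], t, q, τ, d, v, hv, s => by
    simp only [QM.amp, QM.cst, Nat.add_zero]
    exact hv s
  | u :: l, t, q, τ, d, v, hv, s => by
    simp only [QM.amp, QM.cst]
    cases hs : P.step t q τ u with
    | none =>
      simp only
      exact const_mem 0 _
    | some p =>
      simp only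
      rw [← Nat.add_assoc]
      exact amp_low l (t + 1) p.1 p.2 (d + P.cost t q) _
        (mulVec_low _ _ _ (ask_low P κ c t q d v hv)) s

end

section leaf

variable {n : ℕ} {h : Sys n}

theorem nsq_mul_nsq {σ : Type} [Fintype σ] (v w : σ → ℂ) :
    nsq v * nsq w = ∑ s, ∑ s', ‖v s * w s'‖ ^ 2 := by
  unfold nsq
  rw [sum_mul_sum]
  refine sum_congr rfl fun s _ => sum_congr rfl fun s' _ => ?_
  rw [norm_mul, mul_pow]

/-- Correct and many outputs have a small probability. -/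
theorem leaf (hE : Expands h) {D e : ℕ} (hD : 2 * D * 2 ^ 22 ≤ n) (he : e ≤ D)
    {σ : Type} [Fintype σ] [DecidableEq σ] (v w : (Row n → Bool) → σ → ℂ) {d₁ d₂ : ℕ}
    (hv : ∀ s, (fun z => v z s) ∈ Low (Row n) d₁) (hw : ∀ s, (fun z => w z s) ∈ Low (Row n) d₂)
    (hd : d₁ + d₂ ≤ D) {I : Finset (Fin n)} (hI : #I = 3 * e) (C : (Fin n → ZMod 2) → Prop)
    (hC : ∀ y y', C y → C y' → ∀ j ∈ I, y j = y' j) :
    (∑ y : Fin n → ZMod 2, ind (C y) * (nsq (v (rv h y)) * nsq (w (rv h y)))) *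
      (2 ^ Fintype.card (Row n) * 2 ^ e) ≤ 2 ^ n * ∑ z, nsq (v z) * nsq (w z) := by
  by_cases hne : ∃ y₀, C y₀
  · obtain ⟨y₀, hy₀⟩ := hne
    have h1 : ∑ y : Fin n → ZMod 2, ind (C y) * (nsq (v (rv h y)) * nsq (w (rv h y))) ≤
        ∑ y ∈ cyl I y₀, nsq (v (rv h y)) * nsq (w (rv h y)) := by
      unfold cyl
      rw [sum_filter]
      apply sum_le_sum
      intro y _
      by_cases hy : C y
      · rw [ind_true hy, one_mul, if_pos (hC y y₀ hy hy₀)]
      · rw [ind_false hy, zero_mul]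
        split_ifs
        · exact mul_nonneg (nsq_nonneg _) (nsq_nonneg _)
        · exact le_rfl
    have h2 : ∀ s s', (∑ y ∈ cyl I y₀, ‖v (rv h y) s * w (rv h y) s'‖ ^ 2) *
        (2 ^ Fintype.card (Row n) * 2 ^ e) ≤ 2 ^ n * ∑ z, ‖v z s * w z s'‖ ^ 2 := by
      intro s s'
      exact low_bound hE hD he hI y₀ (fun z => v z s * w z s')
        (low_mono (by omega) (mul_mem (hw s') (hv s)))
    have h3 : ∑ y ∈ cyl I y₀, nsq (v (rv h y)) * nsq (w (rv h y)) =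
        ∑ s, ∑ s', ∑ y ∈ cyl I y₀, ‖v (rv h y) s * w (rv h y) s'‖ ^ 2 := by
      simp only [nsq_mul_nsq]
      rw [sum_comm]
      exact sum_congr rfl fun s _ => sum_comm
    have h4 : ∑ z : Row n → Bool, nsq (v z) * nsq (w z) =
        ∑ s, ∑ s', ∑ z, ‖v z s * w z s'‖ ^ 2 := by
      simp only [nsq_mul_nsq]
      rw [sum_comm]
      exact sum_congr rfl fun s _ => sum_comm
    refine (mul_le_mul_of_nonneg_right h1 (by positivity)).trans ?_
    rw [h3, h4, sum_mul, mul_sum]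
    apply sum_le_sum
    intro s _
    rw [sum_mul, mul_sum]
    exact sum_le_sum fun s' _ => h2 s s'
  · have h1 : ∀ y, ind (C y) * (nsq (v (rv h y)) * nsq (w (rv h y))) = 0 := by
      intro y
      rw [ind_false (fun hy => hne ⟨y, hy⟩), zero_mul]
    simp only [h1, sum_const_zero, zero_mul]
    apply mul_nonneg (by positivity)
    exact sum_nonneg fun z _ => mul_nonneg (nsq_nonneg _) (nsq_nonneg _)

end leaf

section cls

variable {n : ℕ} {ι ω : Type} (P : QM ι ω)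

/-- A piece with few queries whose outputs are many and correct for `y`. -/
def gd (o : Fin n → ω) (f : (Fin n → ZMod 2) → Fin n → Bool) (a e t₁ t₃ : ℕ) (q₁ q₃ : P.Node)
    (l₁ l₂ : List P.Out) (y : Fin n → ZMod 2) : Prop :=
  P.cst t₁ q₁ [] l₁ + P.cst t₃ q₃ (P.rho t₁ q₁ l₁) l₂ ≤ a ∧
  3 * e ≤ #(vis o (P.em t₁ q₁ [] l₁ ∪ P.em t₃ q₃ (P.rho t₁ q₁ l₁) l₂)) ∧
  ∀ j b, (o j, b) ∈ (P.em t₁ q₁ [] l₁ ∪ P.em t₃ q₃ (P.rho t₁ q₁ l₁) l₂) → b = f y j

/-- The weight of a class of pieces. -/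
noncomputable def Psi (o : Fin n → ω) (f : (Fin n → ZMod 2) → Fin n → Bool) (a e : ℕ)
    (X : (Fin n → ZMod 2) → ι → Bool) (t₁ k₁ t₃ k₂ : ℕ) (q₁ q₃ : P.Node)
    (y : Fin n → ZMod 2) : ℝ :=
  sumL k₁ (fun l₁ => (∑ s, nsq (P.amp (X y) t₁ q₁ [] (Pi.single s 1) l₁)) *
    sumL k₂ (fun l₂ => ind (gd P o f a e t₁ t₃ q₁ q₃ l₁ l₂ y) *
      ∑ s', nsq (P.amp (X y) t₃ q₃ (P.rho t₁ q₁ l₁) (Pi.single s' 1) l₂)))

theorem Psi_nonneg (o : Fin n → ω) (f : (Fin n → ZMod 2) → Fin n → Bool) (a e : ℕ)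
    (X : (Fin n → ZMod 2) → ι → Bool) (t₁ k₁ t₃ k₂ : ℕ) (q₁ q₃ : P.Node)
    (y : Fin n → ZMod 2) : 0 ≤ Psi P o f a e X t₁ k₁ t₃ k₂ q₁ q₃ y :=
  sumL_nonneg _ fun _ _ => mul_nonneg (sum_nonneg fun _ _ => nsq_nonneg _)
    (sumL_nonneg _ fun _ _ => mul_nonneg (ind_nonneg _) (sum_nonneg fun _ _ => nsq_nonneg _))

/-- **The weight of a class is small.** -/
theorem sum_Psi_le {h : Sys n} (hE : Expands h) {a e : ℕ} (hD : 2 * a * 2 ^ 22 ≤ n)
    (he : e ≤ a) (κ : ι → Option (Row n)) (c : ι → Bool) (o : Fin n → ω)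
    (f : (Fin n → ZMod 2) → Fin n → Bool) (hf : ∀ y y' j, f y' j = f y j → y' j = y j)
    (t₁ k₁ t₃ k₂ : ℕ) (q₁ q₃ : P.Node) :
    (∑ y, Psi P o f a e (fun y => inp κ c (rv h y)) t₁ k₁ t₃ k₂ q₁ q₃ y) * 2 ^ e ≤
      (Fintype.card P.Reg : ℝ) ^ 2 * 2 ^ n := by
  -- the density version of the weight
  set B : (Row n → Bool) → P.Reg → List P.Out → ℝ := fun z s l₁ =>
    nsq (P.amp (inp κ c z) t₁ q₁ [] (Pi.single s 1) l₁) with hB
  set B' : (Row n → Bool) → P.Reg → List P.Out → List P.Out → ℝ := fun z s l₁ l₂ =>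
    nsq (P.amp (inp κ c z) t₃ q₃ (P.rho t₁ q₁ l₁) (Pi.single s 1) l₂) with hB'
  have hB0 : ∀ z s l₁, 0 ≤ B z s l₁ := fun z s l₁ => nsq_nonneg _
  have hB'0 : ∀ z s l₁ l₂, 0 ≤ B' z s l₁ l₂ := fun z s l₁ l₂ => nsq_nonneg _
  -- expand
  have h1 : ∑ y, Psi P o f a e (fun y => inp κ c (rv h y)) t₁ k₁ t₃ k₂ q₁ q₃ y =
      ∑ s, ∑ s', sumL k₁ (fun l₁ => sumL k₂ (fun l₂ =>
        ∑ y, ind (gd P o f a e t₁ t₃ q₁ q₃ l₁ l₂ y) * (B (rv h y) s l₁ * B' (rv h y) s' l₁ l₂))) := by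
    have e1 : ∀ y, Psi P o f a e (fun y => inp κ c (rv h y)) t₁ k₁ t₃ k₂ q₁ q₃ y =
        ∑ s, ∑ s', sumL k₁ (fun l₁ => sumL k₂ (fun l₂ =>
          ind (gd P o f a e t₁ t₃ q₁ q₃ l₁ l₂ y) * (B (rv h y) s l₁ * B' (rv h y) s' l₁ l₂))) := by
      intro y
      have e2 : ∀ s, ∑ s', sumL k₁ (fun l₁ => sumL k₂ (fun l₂ =>
          ind (gd P o f a e t₁ t₃ q₁ q₃ l₁ l₂ y) * (B (rv h y) s l₁ * B' (rv h y) s' l₁ l₂))) =
          sumL k₁ (fun l₁ => ∑ s', sumL k₂ (fun l₂ =>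
          ind (gd P o f a e t₁ t₃ q₁ q₃ l₁ l₂ y) *
            (B (rv h y) s l₁ * B' (rv h y) s' l₁ l₂))) :=
        fun s => (sumL_sum univ k₁ _).symm
      rw [sum_congr rfl fun s _ => e2 s]
      rw [← sumL_sum univ k₁ (fun s l₁ => ∑ s', sumL k₂ (fun l₂ =>
          ind (gd P o f a e t₁ t₃ q₁ q₃ l₁ l₂ y) * (B (rv h y) s l₁ * B' (rv h y) s' l₁ l₂)))]
      unfold Psi
      refine sumL_congr _ fun l₁ _ => ?_
      rw [sum_mul]
      refine sum_congr rfl fun s _ => ?_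
      rw [← sumL_mul, ← sumL_sum univ k₂ (fun s' l₂ =>
          ind (gd P o f a e t₁ t₃ q₁ q₃ l₁ l₂ y) * (B (rv h y) s l₁ * B' (rv h y) s' l₁ l₂))]
      refine sumL_congr _ fun l₂ _ => ?_
      rw [mul_sum, mul_sum]
      refine sum_congr rfl fun s' _ => ?_
      simp only [hB, hB']
      ring
    rw [sum_congr rfl fun y _ => e1 y, sum_comm]
    refine sum_congr rfl fun s _ => ?_
    rw [sum_comm]
    refine sum_congr rfl fun s' _ => ?_
    rw [← sumL_sum]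
    refine sumL_congr _ fun l₁ _ => ?_
    rw [← sumL_sum]
  -- the bound for each pair of basis states
  have h2 : ∀ s s', sumL k₁ (fun l₁ => sumL k₂ (fun l₂ =>
      ∑ y, ind (gd P o f a e t₁ t₃ q₁ q₃ l₁ l₂ y) * (B (rv h y) s l₁ * B' (rv h y) s' l₁ l₂))) *
      (2 ^ Fintype.card (Row n) * 2 ^ e) ≤ 2 ^ n * 2 ^ Fintype.card (Row n) := by
    intro s s'
    have e1 : ∀ l₁ l₂, (2 ^ Fintype.card (Row n) * 2 ^ e) *
        ∑ y, ind (gd P o f a e t₁ t₃ q₁ q₃ l₁ l₂ y) * (B (rv h y) s l₁ * B' (rv h y) s' l₁ l₂) ≤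
        2 ^ n * ∑ z, B z s l₁ * B' z s' l₁ l₂ := by
      intro l₁ l₂
      rw [mul_comm]
      by_cases hc : P.cst t₁ q₁ [] l₁ + P.cst t₃ q₃ (P.rho t₁ q₁ l₁) l₂ ≤ a ∧
          3 * e ≤ #(vis o (P.em t₁ q₁ [] l₁ ∪ P.em t₃ q₃ (P.rho t₁ q₁ l₁) l₂))
      · obtain ⟨hc1, hc2⟩ := hc
        obtain ⟨I, hIs, hIc⟩ := exists_subset_card_eq hc2
        refine leaf hE hD he (fun z => P.amp (inp κ c z) t₁ q₁ [] (Pi.single s 1) l₁)
          (fun z => P.amp (inp κ c z) t₃ q₃ (P.rho t₁ q₁ l₁) (Pi.single s' 1) l₂)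
          (d₁ := 0 + P.cst t₁ q₁ [] l₁) (d₂ := 0 + P.cst t₃ q₃ (P.rho t₁ q₁ l₁) l₂)
          (amp_low P κ c l₁ t₁ q₁ [] 0 _ (fun s => const_mem _ _))
          (amp_low P κ c l₂ t₃ q₃ _ 0 _ (fun s => const_mem _ _)) (by omega) hIc _ ?_
        intro y y' hy hy' j hj
        obtain ⟨b, hb⟩ := (mem_vis _ _ _).1 (hIs hj)
        have k1 := hy.2.2 j b hb
        have k2 := hy'.2.2 j b hb
        exact hf y' y j (k1.symm.trans k2)
      · have e3 : ∀ y, ind (gd P o f a e t₁ t₃ q₁ q₃ l₁ l₂ y) = 0 := by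
          intro y
          exact ind_false (fun hy => hc ⟨hy.1, hy.2.1⟩)
        simp only [e3, zero_mul, sum_const_zero]
        exact mul_nonneg (by positivity) (sum_nonneg fun z _ => mul_nonneg (hB0 _ _ _)
          (hB'0 _ _ _ _))
    have e2 : sumL k₁ (fun l₁ => sumL k₂ (fun l₂ => ∑ z, B z s l₁ * B' z s' l₁ l₂)) ≤
        2 ^ Fintype.card (Row n) := by
      have e4 : sumL k₁ (fun l₁ => sumL k₂ (fun l₂ => ∑ z, B z s l₁ * B' z s' l₁ l₂)) =
          ∑ z, sumL k₁ (fun l₁ => B z s l₁ * sumL k₂ (fun l₂ => B' z s' l₁ l₂)) := by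
        rw [← sumL_sum univ k₁ (fun z l₁ => B z s l₁ * sumL k₂ (fun l₂ => B' z s' l₁ l₂))]
        refine sumL_congr _ fun l₁ _ => ?_
        rw [sumL_sum]
        refine sum_congr rfl fun z _ => ?_
        rw [sumL_mul]
      rw [e4]
      have e5 : ∀ z : Row n → Bool,
          sumL k₁ (fun l₁ => B z s l₁ * sumL k₂ (fun l₂ => B' z s' l₁ l₂)) ≤ 1 := by
        intro z
        calc sumL k₁ (fun l₁ => B z s l₁ * sumL k₂ (fun l₂ => B' z s' l₁ l₂)) ≤
            sumL k₁ (fun l₁ => B z s l₁) := by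
              apply sumL_mono
              intro l₁ _
              have e6 : sumL k₂ (fun l₂ => B' z s' l₁ l₂) ≤ 1 := by
                have := P.sumL_nsq_amp_le (inp κ c z) k₂ t₃ q₃ (P.rho t₁ q₁ l₁) (Pi.single s' 1)
                rwa [nsq_single] at this
              calc B z s l₁ * sumL k₂ (fun l₂ => B' z s' l₁ l₂) ≤ B z s l₁ * 1 :=
                    mul_le_mul_of_nonneg_left e6 (hB0 _ _ _)
                _ = _ := mul_one _
          _ ≤ 1 := by
              have := P.sumL_nsq_amp_le (inp κ c z) k₁ t₁ q₁ [] (Pi.single s 1)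
              rwa [nsq_single] at this
      calc ∑ z : Row n → Bool,
            sumL k₁ (fun l₁ => B z s l₁ * sumL k₂ (fun l₂ => B' z s' l₁ l₂)) ≤
            ∑ _z : Row n → Bool, (1 : ℝ) := sum_le_sum fun z _ => e5 z
        _ = 2 ^ Fintype.card (Row n) := by simp
    have hpos : (0 : ℝ) ≤ 2 ^ n := by positivity
    calc _ = sumL k₁ (fun l₁ => sumL k₂ (fun l₂ => (2 ^ Fintype.card (Row n) * 2 ^ e) *
          ∑ y, ind (gd P o f a e t₁ t₃ q₁ q₃ l₁ l₂ y) *
            (B (rv h y) s l₁ * B' (rv h y) s' l₁ l₂))) := by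
          rw [mul_comm, ← sumL_mul]
          refine sumL_congr _ fun l₁ _ => ?_
          rw [← sumL_mul]
      _ ≤ sumL k₁ (fun l₁ => sumL k₂ (fun l₂ => 2 ^ n * ∑ z, B z s l₁ * B' z s' l₁ l₂)) :=
          sumL_mono _ fun l₁ _ => sumL_mono _ fun l₂ _ => e1 l₁ l₂
      _ = 2 ^ n * sumL k₁ (fun l₁ => sumL k₂ (fun l₂ => ∑ z, B z s l₁ * B' z s' l₁ l₂)) := by
          rw [← sumL_mul]
          refine sumL_congr _ fun l₁ _ => ?_
          rw [← sumL_mul]
      _ ≤ _ := mul_le_mul_of_nonneg_left e2 hpos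
  have h3 : ∀ s s', sumL k₁ (fun l₁ => sumL k₂ (fun l₂ =>
      ∑ y, ind (gd P o f a e t₁ t₃ q₁ q₃ l₁ l₂ y) * (B (rv h y) s l₁ * B' (rv h y) s' l₁ l₂))) *
      2 ^ e ≤ 2 ^ n := by
    intro s s'
    have hpos : (0 : ℝ) < 2 ^ Fintype.card (Row n) := by positivity
    apply le_of_mul_le_mul_right _ hpos
    calc _ = _ := by ring
      _ ≤ _ := h2 s s'
  rw [h1, sum_mul]
  calc _ ≤ ∑ _s : P.Reg, (Fintype.card P.Reg : ℝ) * 2 ^ n := by
        apply sum_le_sum
        intro s _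
        rw [sum_mul]
        calc _ ≤ ∑ _s' : P.Reg, (2 : ℝ) ^ n := sum_le_sum fun s' _ => h3 s s'
          _ = _ := by rw [sum_const, card_univ, nsmul_eq_mul]
    _ = _ := by rw [sum_const, card_univ, nsmul_eq_mul]; ring

end cls

end Pool.Agent.Y602.QS
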