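import Mathlib

/-!
# Cutting a computation with a stack into pieces with one hole

The times are natural numbers, `h r` is the height of the stack at time `r`, and `w r` is the weight
of the step from `r` to `r + 1`. A piece consists of the steps in `[t₁, t₂)` and in `[t₃, t₄)`, where
the height does not fall below its value at time `t₁` in `[t₁, t₄]`, and in the hole `[t₂, t₃]` it
does not fall below its value at time `t₂`, and is the same at the end.
-/

set_option autoImplicit false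

namespace Pool.Agent.Y602.QS

open Finset

/-- In `[s, t]` the height is at least that at time `s`. -/
def Val (h : ℕ → ℕ) (s t : ℕ) : Prop := s ≤ t ∧ ∀ r, s ≤ r → r ≤ t → h s ≤ h r

/-- The weight of an interval. -/
def Wt (w : ℕ → ℕ) (s t : ℕ) : ℕ := ∑ r ∈ Ico s t, w r

theorem Wt_self (w : ℕ → ℕ) (s : ℕ) : Wt w s s = 0 := by simp [Wt]

theorem Wt_one (w : ℕ → ℕ) (s : ℕ) : Wt w s (s + 1) = w s := by simp [Wt]

theorem Wt_add (w : ℕ → ℕ) {s u t : ℕ} (h1 : s ≤ u) (h2 : u ≤ t) :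
    Wt w s t = Wt w s u + Wt w u t := by
  unfold Wt
  rw [sum_Ico_consecutive _ h1 h2]

theorem union_eq_of {X Y Z A : Finset ℕ} (h : X ∪ Y = Z) : X ∪ (Y ∪ A) = Z ∪ A := by
  rw [← union_assoc, h]

theorem cut_aux {h w : ℕ → ℕ} {G : Finset ℕ → ℕ} {K a g : ℕ} (ha : 2 ≤ a)
    (hw : ∀ r, w r ≤ 1) (hstep : ∀ r, h (r + 1) ≤ h r + 1 ∧ h r ≤ h (r + 1) + 1)
    (Gsub : ∀ A B, G (A ∪ B) ≤ G A + G B)
    (H : ∀ t₁ t₂ t₃ t₄, t₁ ≤ t₂ → t₂ ≤ t₃ → t₃ ≤ t₄ → t₄ ≤ K → Val h t₁ t₄ → Val h t₂ t₃ →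
      h t₃ = h t₂ → Wt w t₁ t₂ + Wt w t₃ t₄ ≤ a → G (Ico t₁ t₂ ∪ Ico t₃ t₄) ≤ g) :
    ∀ (d s t : ℕ), t - s = d → t ≤ K → Val h s t → ∃ n t₂ t₃, s ≤ t₂ ∧ t₂ ≤ t₃ ∧ t₃ ≤ t ∧
      Val h t₂ t₃ ∧ (h t₃ = h t₂ ∨ t₃ = t) ∧ Wt w s t₂ + Wt w t₃ t ≤ a ∧
      (∀ A, G (Ico s t ∪ A) ≤ n * g + G ((Ico s t₂ ∪ Ico t₃ t) ∪ A)) ∧
      ((n = 0 ∧ t₂ = t ∧ t₃ = t) ∨
        n * a + 3 * a + 6 * (Wt w s t₂ + Wt w t₃ t) ≤ 6 * Wt w s t) := by
  have fin : ∀ t₁ t₂ t₃ t₄, t₁ ≤ t₂ → t₂ ≤ t₃ → t₃ ≤ t₄ → t₄ ≤ K → Val h t₁ t₄ → Val h t₂ t₃ →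
      (h t₃ = h t₂ ∨ t₃ = t₄) → Wt w t₁ t₂ + Wt w t₃ t₄ ≤ a →
      G (Ico t₁ t₂ ∪ Ico t₃ t₄) ≤ g := by
    intro t₁ t₂ t₃ t₄ h12 h23 h34 h4 v1 v2 hc hwt
    rcases hc with hc | hc
    · exact H t₁ t₂ t₃ t₄ h12 h23 h34 h4 v1 v2 hc hwt
    · have h5 := H t₁ t₂ t₂ t₂ h12 le_rfl le_rfl (by omega)
        ⟨h12, fun r hr hr' => v1.2 r hr (by omega)⟩
        ⟨le_rfl, fun r hr hr' => by
          have : r = t₂ := by omega
          rw [this]⟩ rfl (by rw [Wt_self]; omega)
      rw [hc, Ico_self]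
      rwa [Ico_self] at h5
  intro d
  induction d using Nat.strong_induction_on with
  | _ d ih =>
  intro s t hd htK hV
  rcases Nat.eq_or_lt_of_le hV.1 with hst | hst
  · subst hst
    refine ⟨0, s, s, le_rfl, le_rfl, le_rfl, hV, Or.inl rfl, ?_, ?_, Or.inl ⟨rfl, rfl, rfl⟩⟩
    · rw [Wt_self]; omega
    · intro A
      rw [Ico_self]
      simp
  by_cases hV1 : Val h (s + 1) t
  · -- a single step
    obtain ⟨n, t₂, t₃, h1, h2, h3, h4, h5, h6, h7, h8⟩ := ih (t - (s + 1)) (by omega) (s + 1) t rfl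
      htK hV1
    have hws := hw s
    have e1 : Wt w s t = w s + Wt w (s + 1) t := by
      rw [Wt_add w (Nat.le_succ s) (by omega), Wt_one]
    have e2 : Wt w s t₂ = w s + Wt w (s + 1) t₂ := by
      rw [Wt_add w (Nat.le_succ s) (by omega), Wt_one]
    by_cases hle : w s + (Wt w (s + 1) t₂ + Wt w t₃ t) ≤ a
    · refine ⟨n, t₂, t₃, by omega, h2, h3, h4, h5, by omega, ?_, ?_⟩
      · intro A
        have h9 := h7 (Ico s (s + 1) ∪ A)
        rw [union_eq_of (Z := Ico s t) (by ext r; simp only [mem_union, mem_Ico]; omega),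
          union_eq_of (Z := Ico s t₂ ∪ Ico t₃ t)
            (by ext r; simp only [mem_union, mem_Ico]; omega)] at h9
        exact h9
      · rcases h8 with h8 | h8
        · exact Or.inl h8
        · right; omega
    · refine ⟨n + 1, s + 1, t, by omega, by omega, le_rfl, hV1, Or.inr rfl, ?_, ?_, ?_⟩
      · rw [Wt_one, Wt_self]; omega
      · intro A
        have h9 := h7 (Ico s (s + 1) ∪ A)
        rw [union_eq_of (Z := Ico s t) (by ext r; simp only [mem_union, mem_Ico]; omega)] at h9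
        have h10 := Gsub (Ico (s + 1) t₂ ∪ Ico t₃ t) (Ico s (s + 1) ∪ A)
        have h11 := fin (s + 1) t₂ t₃ t h1 h2 h3 htK hV1 h4 h5 h6
        rw [Ico_self, union_empty, Nat.add_mul, one_mul]
        omega
      · right
        rw [Wt_one, Wt_self, e1, Nat.add_mul, one_mul]
        rcases h8 with ⟨h8, h8', h8''⟩ | h8
        · subst h8 h8' h8''
          rw [Wt_self] at hle
          omega
        · omega
  · -- a push and a pop
    have hex : ∃ r, s + 1 ≤ r ∧ r ≤ t ∧ h r < h (s + 1) := by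
      unfold Val at hV1
      push Not at hV1
      obtain ⟨r, hr⟩ := hV1 (by omega)
      exact ⟨r, hr⟩
    classical
    obtain ⟨r0, hr0, hmin⟩ : ∃ r, (s + 1 ≤ r ∧ r ≤ t ∧ h r < h (s + 1)) ∧
        ∀ r', r' < r → ¬ (s + 1 ≤ r' ∧ r' ≤ t ∧ h r' < h (s + 1)) :=
      ⟨Nat.find hex, Nat.find_spec hex, fun r' hr' => Nat.find_min hex hr'⟩
    have hne : r0 ≠ s + 1 := by
      rintro rfl
      exact lt_irrefl _ hr0.2.2
    obtain ⟨v, rfl⟩ : ∃ v, r0 = v + 1 := ⟨r0 - 1, by omega⟩
    have hv1 : s + 1 ≤ v := by omega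
    have hmin' : ∀ r, s + 1 ≤ r → r ≤ v → h (s + 1) ≤ h r := by
      intro r hr hr'
      by_contra hcon
      exact hmin r (by omega) ⟨hr, by omega, by omega⟩
    have k1 := hmin' v hv1 le_rfl
    have k2 := hstep v
    have k3 := hstep s
    have k4 := hV.2 (v + 1) (by omega) hr0.2.1
    have k5 := hr0.2.2
    have hhv : h v = h (s + 1) := by omega
    have hhv1 : h (v + 1) = h s := by omega
    have V1 : Val h (s + 1) v := ⟨hv1, hmin'⟩
    have V2 : Val h (v + 1) t := ⟨hr0.2.1, fun r hr hr' => by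
      rw [hhv1]; exact hV.2 r (by omega) hr'⟩
    obtain ⟨n, t₂, t₃, h1, h2, h3, h4, h5, h6, h7, h8⟩ := ih (v - (s + 1)) (by omega) (s + 1) v rfl
      (by omega) V1
    obtain ⟨n', t₂', t₃', h1', h2', h3', h4', h5', h6', h7', h8'⟩ := ih (t - (v + 1)) (by omega)
      (v + 1) t rfl htK V2
    have hvt : v + 1 ≤ t := hr0.2.1
    have hws := hw s
    have hwv := hw v
    have e1 : Wt w s t = w s + Wt w (s + 1) v + w v + Wt w (v + 1) t := by
      rw [Wt_add w (show s ≤ s + 1 by omega) (show s + 1 ≤ t by omega), Wt_one,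
        Wt_add w (show s + 1 ≤ v by omega) (show v ≤ t by omega),
        Wt_add w (show v ≤ v + 1 by omega) (show v + 1 ≤ t by omega), Wt_one]
      ring
    -- the closedness of the left hole
    have hcl : h t₃ = h t₂ := by
      rcases h5 with h5 | h5
      · exact h5
      · have k6 := V1.2 t₂ h1 (by omega)
        have k7 := h4.2 t₃ h2 le_rfl
        rw [h5] at k7 ⊢
        omega
    by_cases hle : w s + w v + (Wt w (s + 1) t₂ + Wt w t₃ v) +
        (Wt w (v + 1) t₂' + Wt w t₃' t) ≤ a ∧ ((n = 0 ∧ t₂ = v ∧ t₃ = v) ∨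
          (n' = 0 ∧ t₂' = t ∧ t₃' = t))
    · obtain ⟨hle, hn | hn⟩ := hle
      · -- no hole on the left
        obtain ⟨rfl, rfl, rfl⟩ := hn
        rw [Wt_self] at hle
        have e2 : Wt w s t₂' = w s + Wt w (s + 1) t₃ + w t₃ + Wt w (t₃ + 1) t₂' := by
          rw [Wt_add w (show s ≤ s + 1 by omega) (show s + 1 ≤ t₂' by omega), Wt_one,
            Wt_add w (show s + 1 ≤ t₃ by omega) (show t₃ ≤ t₂' by omega),
            Wt_add w (show t₃ ≤ t₃ + 1 by omega) (show t₃ + 1 ≤ t₂' by omega), Wt_one]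
          ring
        refine ⟨n', t₂', t₃', by omega, h2', h3', h4', h5', by omega, ?_, ?_⟩
        · intro A
          have h9 := h7' (Ico s (t₃ + 1) ∪ A)
          rw [union_eq_of (Z := Ico s t) (by ext r; simp only [mem_union, mem_Ico]; omega),
            union_eq_of (Z := Ico s t₂' ∪ Ico t₃' t)
              (by ext r; simp only [mem_union, mem_Ico]; omega)] at h9
          exact h9
        · rcases h8' with h8' | h8'
          · exact Or.inl h8'
          · right; omega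
      · -- no hole on the right
        obtain ⟨rfl, rfl, rfl⟩ := hn
        rw [Wt_self] at hle
        have e2 : Wt w s t₂ = w s + Wt w (s + 1) t₂ := by
          rw [Wt_add w (show s ≤ s + 1 by omega) (show s + 1 ≤ t₂ by omega), Wt_one]
        have e3 : Wt w t₃ t₃' = Wt w t₃ v + w v + Wt w (v + 1) t₃' := by
          rw [Wt_add w (show t₃ ≤ v by omega) (show v ≤ t₃' by omega),
            Wt_add w (show v ≤ v + 1 by omega) (show v + 1 ≤ t₃' by omega), Wt_one]
          ring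
        rcases h8 with h8 | h8
        · obtain ⟨rfl, rfl, rfl⟩ := h8
          rw [Wt_self] at hle
          refine ⟨0, t₃', t₃', by omega, le_rfl, le_rfl,
            ⟨le_rfl, fun r hr hr' => by
              have : r = t₃' := by omega
              rw [this]⟩, Or.inl rfl, ?_, ?_, Or.inl ⟨rfl, rfl, rfl⟩⟩
          · rw [Wt_self, e1]; omega
          · intro A
            rw [Ico_self, union_empty]
            simp
        · refine ⟨n, t₂, t₃, by omega, h2, by omega, h4, Or.inl hcl, by omega, ?_, ?_⟩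
          · intro A
            have h9 := h7 ((Ico s (s + 1) ∪ Ico v t₃') ∪ A)
            rw [union_eq_of (Z := Ico s t₃') (by ext r; simp only [mem_union, mem_Ico]; omega),
              union_eq_of (Z := Ico s t₂ ∪ Ico t₃ t₃')
                (by ext r; simp only [mem_union, mem_Ico]; omega)] at h9
            exact h9
          · right; omega
    · -- finish both
      refine ⟨n + n' + 3, s, t, le_rfl, hV.1, le_rfl, hV, Or.inr rfl, ?_, ?_, ?_⟩
      · rw [Wt_self, Wt_self]; omega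
      · intro A
        have g1 := fin (s + 1) t₂ t₃ v h1 h2 h3 (by omega) V1 h4 h5 h6
        have g2 := fin (v + 1) t₂' t₃' t h1' h2' h3' htK V2 h4' h5' h6'
        have g3 := H s (s + 1) v (v + 1) (by omega) hv1 (by omega) (by omega)
          ⟨by omega, fun r hr hr' => hV.2 r hr (by omega)⟩ V1 hhv
          (by rw [Wt_one, Wt_one]; omega)
        have g4 := h7 ((Ico s (s + 1) ∪ Ico v t) ∪ A)
        have g5 := h7' ((Ico s (s + 1) ∪ Ico v (v + 1)) ∪ A)
        rw [union_eq_of (Z := Ico s t)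
          (by ext r; simp only [mem_union, mem_Ico]; omega)] at g4
        have g6 := Gsub (Ico (s + 1) t₂ ∪ Ico t₃ v) ((Ico s (s + 1) ∪ Ico v t) ∪ A)
        have g7 : (Ico s (s + 1) ∪ Ico v t) ∪ A = Ico (v + 1) t ∪
            ((Ico s (s + 1) ∪ Ico v (v + 1)) ∪ A) := by
          symm
          apply union_eq_of
          ext r; simp only [mem_union, mem_Ico]; omega
        have g8 := Gsub (Ico (v + 1) t₂' ∪ Ico t₃' t) ((Ico s (s + 1) ∪ Ico v (v + 1)) ∪ A)
        have g9 := Gsub (Ico s (s + 1) ∪ Ico v (v + 1)) A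
        rw [← g7] at g5
        rw [Ico_self, Ico_self, empty_union, empty_union, Nat.add_mul, Nat.add_mul]
        omega
      · right
        rw [Wt_self, Wt_self, e1, Nat.add_mul, Nat.add_mul]
        push Not at hle
        rcases h8 with ⟨h8, k8, l8⟩ | h8 <;> rcases h8' with ⟨h8', k8', l8'⟩ | h8'
        · subst h8 k8 l8 h8' k8' l8'
          rw [Wt_self, Wt_self] at hle
          by_contra hcon
          have h10 := (hle (by omega)).1 rfl rfl
          exact h10 rfl
        · subst h8 k8 l8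
          rw [Wt_self] at hle
          by_contra hcon
          exact (hle (by omega)).1 rfl rfl rfl
        · subst h8' k8' l8'
          by_contra hcon
          rw [Wt_self w t₃'] at hle
          exact (hle (by omega)).2 rfl rfl rfl
        · omega

end Pool.Agent.Y602.QS
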