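import Mathlib

/-!
# Quantum machines with a quantum register, a classical control and an unlimited classical stack

A machine has a finite set of nodes (the classical control), a quantum register with an orthonormal
basis `Reg`, and a classical stack. In each step it makes at most one query to the input, in
superposition, then it makes an arbitrary (generalized) measurement of its register, and depending on
the outcome it emits some outputs, proceeds to another node and pushes a symbol on the stack or pops
one. Everything may depend on the time in an arbitrary way (the machine is not uniform).
-/

set_option autoImplicit false

namespace Pool.Agent.Y602.QS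

open scoped Matrix

/-- What is done after a measurement: `goto q` proceeds to the node `q`; `push a q` puts the symbol
`a` on the stack and proceeds to the node `q`; `pop nxt` removes the symbol `a` on the top of the
stack and proceeds to the node `nxt a` (if the stack is empty then the computation fails). -/
inductive Act (S Γ : Type) where
  | goto (q : S)
  | push (a : Γ) (q : S)
  | pop (nxt : Γ → S)

/-- A (non-uniform) quantum machine with a classical stack, with inputs bits `ι` and outputs `ω`.
The stack symbols may be the elements of any type, and there is no bound on the height of the
stack. -/
structure QM (ι ω : Type) where
  /-- the nodes (the classical control) -/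
  Node : Type
  /-- there are finitely many nodes -/
  [fintypeNode : Fintype Node]
  /-- the orthonormal basis of the quantum register -/
  Reg : Type
  /-- it is finite -/
  [fintypeReg : Fintype Reg]
  /-- it has decidable equality -/
  [decEqReg : DecidableEq Reg]
  /-- the stack symbols -/
  Sym : Type
  /-- the outcomes of the measurements -/
  Out : Type
  /-- there are finitely many of them -/
  [fintypeOut : Fintype Out]
  /-- the start node -/
  start : Node
  /-- the initial state of the register -/
  init : Reg → ℂ
  /-- it is a unit vector -/
  norm_init : ∑ s, ‖init s‖ ^ 2 = 1
  /-- the query made at time `t` in the node `q`: `none` if there is no query in this step, and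
  otherwise the input bit queried by each basis state (`none` for no bit) -/
  query : ℕ → Node → Option (Reg → Option ι)
  /-- the operator applied at time `t` in the node `q`, after the query, for the given outcome -/
  op : ℕ → Node → Out → Matrix Reg Reg ℂ
  /-- the operators for the different outcomes form a (generalized) measurement -/
  sum_op : ∀ t q, ∑ u, (op t q u)ᴴ * op t q u = 1
  /-- the pairs (output, value) emitted at time `t` in the node `q` for the given outcome -/
  emit : ℕ → Node → Out → Set (ω × Bool)
  /-- what is done then -/
  act : ℕ → Node → Out → Act Node Sym

attribute [instance] QM.fintypeNode QM.fintypeReg QM.decEqReg QM.fintypeOut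

namespace QM

variable {ι ω : Type} (P : QM ι ω)

/-- The query, on the input `x`: the basis state `s` is multiplied by `-1` if the input bit which it
queries is one. -/
def ask (x : ι → Bool) (t : ℕ) (q : P.Node) (v : P.Reg → ℂ) : P.Reg → ℂ :=
  match P.query t q with
  | none => v
  | some f => fun s => if (match f s with | none => false | some i => x i) then - v s else v s

/-- The number of queries made at time `t` in the node `q`. -/
def cost (t : ℕ) (q : P.Node) : ℕ := if (P.query t q).isSome then 1 else 0

/-- The next node and stack; `none` if the computation fails. -/
def step (t : ℕ) (q : P.Node) (τ : List P.Sym) (u : P.Out) : Option (P.Node × List P.Sym) :=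
  match P.act t q u with
  | .goto q' => some (q', τ)
  | .push a q' => some (q', a :: τ)
  | .pop nxt => match τ with
    | [] => none
    | a :: τ' => some (nxt a, τ')

open Classical in
/-- The probability that, on the input `x`, started at time `t` in the node `q` with the stack `τ`
and the register in the state `v`, in the given number of steps the computation does not fail, and
the number of its queries and the set of all emitted pairs satisfy `E`.  (A state of norm less than
one is a state which is reached with probability the square of its norm.) -/
noncomputable def prob (x : ι → Bool) : ℕ → ℕ → P.Node → List P.Sym → (P.Reg → ℂ) →
    (ℕ → Set (ω × Bool) → Prop) → ℝ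
  | 0, _, _, _, v, E => if E 0 ∅ then ∑ s, ‖v s‖ ^ 2 else 0
  | k + 1, t, q, τ, v, E => ∑ u, match P.step t q τ u with
      | none => 0
      | some p => prob x k (t + 1) p.1 p.2 ((P.op t q u).mulVec (P.ask x t q v))
          (fun c O => E (P.cost t q + c) (P.emit t q u ∪ O))

/-- The probability that, on the input `x`, in `K` steps the computation (started with the empty
stack) does not fail, makes at most `T` queries, and the set of all emitted pairs satisfies `G`. -/
noncomputable def success (x : ι → Bool) (K T : ℕ) (G : Set (ω × Bool) → Prop) : ℝ :=
  P.prob x K 0 P.start [] P.init (fun c O => c ≤ T ∧ G O)

end QM

end Pool.Agent.Y602.QS
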