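import Pool.Agent.Y602.QS.Defs
import Pool.Agent.TH706.ST.Cnf

/-!
# Finding satisfying assignments: definition
-/

set_option autoImplicit false

namespace Pool.Agent.Y602.QS

open Pool.Agent.TH706.ST

/-- The set `O` of emitted pairs (variable, value) describes a satisfying assignment of the formula
`w`: for some satisfying assignment `α`, exactly the pairs `(v, α v)` are emitted for the variables
`v` that occur in `w` (what is emitted for other names is ignored). -/
def QFinds {M ℓ : ℕ} (w : Idx M ℓ → Bool) (O : Set ((Fin ℓ → Bool) × Bool)) : Prop :=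
  ∃ α, Sat w α ∧ ∀ v, Occurs w v → ∀ b, (v, b) ∈ O ↔ b = α v

end Pool.Agent.Y602.QS
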