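import Pool.Agent.Y602.QS.Union
import Pool.Agent.Y602.QS.FindDef
import Pool.Agent.TH706.ST.Find

/-!
# Quantum machines with a classical stack: queries times memory
-/

set_option autoImplicit false
set_option linter.unusedSectionVars false

namespace Pool.Agent.Y602.QS

open Finset
open scoped Matrix
open Pool.Agent.TH706.ST

/-- **The trade-off.** The right hand sides of an expanding system are (coded in) the input, and
the unknowns are (coded in) the outputs. -/
theorem core {n : ℕ} {h : Sys n} (hE : Expands h) {ι ω : Type} (P : QM ι ω)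
    (κ : ι → Option (Row n)) (c : ι → Bool) (o : Fin n → ω)
    (f : (Fin n → ZMod 2) → Fin n → Bool) (hf : ∀ y y' j, f y' j = f y j → y' j = y j)
    (G : (Fin n → ZMod 2) → Set (ω × Bool) → Prop)
    (hG : ∀ y O, G y O → (∀ j, ∃ b, (o j, b) ∈ O) ∧ ∀ j b, (o j, b) ∈ O → b = f y j)
    (T K π : ℕ) (hc : (2 : ℝ) ^ n ≤ 2 ^ π * ∑ y, P.success (inp κ c (rv h y)) K T (G y)) :
    n ^ 2 ≤ 2 ^ 31 * ((T + n) * (Nat.log 2 (Fintype.card P.Node * Fintype.card P.Reg) +
      Nat.log 2 (K + 1) + π + 1)) := by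
  obtain ⟨N, hN⟩ : ∃ N, N = Fintype.card P.Node * Fintype.card P.Reg := ⟨_, rfl⟩
  obtain ⟨L, hL⟩ : ∃ L, L = Nat.log 2 N + Nat.log 2 (K + 1) + π + 1 := ⟨_, rfl⟩
  rw [← hN, ← hL]
  have hL1 : 1 ≤ L := by omega
  by_cases hn : n < 2 ^ 24
  · calc n ^ 2 = n * n := by ring
      _ ≤ 2 ^ 24 * n := Nat.mul_le_mul_right _ hn.le
      _ ≤ 2 ^ 31 * ((T + n) * L) := by
          apply Nat.mul_le_mul (by norm_num)
          calc n ≤ T + n := by omega
            _ = (T + n) * 1 := by ring
            _ ≤ _ := Nat.mul_le_mul_left _ hL1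
  push Not at hn
  obtain ⟨a, ha⟩ : ∃ a, a = n / 2 ^ 23 := ⟨_, rfl⟩
  have ha1 : 2 ≤ a := by omega
  have ha2 : 2 * a * 2 ^ 22 ≤ n := by omega
  have ha3 : n ≤ 2 ^ 24 * a := by omega
  obtain ⟨N₁, hN₁⟩ : ∃ N₁, N₁ = (n * a - 1) / (6 * T + a) := ⟨_, rfl⟩
  have hna : 1 ≤ n * a := Nat.mul_pos (by omega) (by omega)
  have h1 : (6 * T + a) * N₁ < n * a := by
    have := Nat.mul_div_le (n * a - 1) (6 * T + a)
    rw [← hN₁] at this
    omega
  have h2 : n * a ≤ (6 * T + a) * (N₁ + 1) := by
    have := Nat.lt_mul_div_succ (n * a - 1) (show 0 < 6 * T + a by omega)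
    rw [← hN₁] at this
    omega
  obtain ⟨e, he⟩ : ∃ e, e = min a ((N₁ + 1) / 3) := ⟨_, rfl⟩
  have hea : e ≤ a := by rw [he]; exact min_le_left _ _
  have heN : 3 * e - 1 ≤ N₁ := by
    have : e ≤ (N₁ + 1) / 3 := by rw [he]; exact min_le_right _ _
    omega
  have hae : (6 * T + a) * (3 * e - 1) < n * a :=
    lt_of_le_of_lt (Nat.mul_le_mul_left _ heN) h1
  have h3 := sum_success_le P hE (K := K) ha1 ha2 hea hae κ c o f hf G hG
  -- the exponents
  have h4 : (2 : ℝ) ^ e ≤ 2 ^ π * ((K + 1) ^ 4 * (N : ℝ) ^ 2) := by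
    have hpos : (0 : ℝ) < 2 ^ n := by positivity
    apply le_of_mul_le_mul_left _ hpos
    calc (2 : ℝ) ^ n * 2 ^ e ≤
          (2 ^ π * ∑ y, P.success (inp κ c (rv h y)) K T (G y)) * 2 ^ e :=
          mul_le_mul_of_nonneg_right hc (by positivity)
      _ = 2 ^ π * ((∑ y, P.success (inp κ c (rv h y)) K T (G y)) * 2 ^ e) := by ring
      _ ≤ 2 ^ π * ((K + 1) ^ 4 * (Fintype.card P.Node * Fintype.card P.Reg) ^ 2 * 2 ^ n) :=
          mul_le_mul_of_nonneg_left h3 (by positivity)
      _ = _ := by rw [hN]; push_cast; ring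
  have h5 : 2 ^ e ≤ 2 ^ π * ((K + 1) ^ 4 * N ^ 2) := by exact_mod_cast h4
  have h6 : K + 1 ≤ 2 ^ (Nat.log 2 (K + 1) + 1) :=
    (Nat.lt_pow_succ_log_self (by norm_num) _).le
  have h7 : N ≤ 2 ^ (Nat.log 2 N + 1) := (Nat.lt_pow_succ_log_self (by norm_num) _).le
  have h8 : e ≤ 6 * L := by
    have h9 : 2 ^ e ≤ 2 ^ (π + (4 * (Nat.log 2 (K + 1) + 1) + 2 * (Nat.log 2 N + 1))) := by
      calc 2 ^ e ≤ 2 ^ π * ((K + 1) ^ 4 * N ^ 2) := h5
        _ ≤ 2 ^ π * ((2 ^ (Nat.log 2 (K + 1) + 1)) ^ 4 * (2 ^ (Nat.log 2 N + 1)) ^ 2) := by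
            gcongr
        _ = _ := by rw [← pow_mul, ← pow_mul, ← pow_add, ← pow_add]; congr 1; ring
    have := (Nat.pow_le_pow_iff_right (by norm_num)).1 h9
    omega
  rcases le_total a ((N₁ + 1) / 3) with hle | hle
  · rw [min_eq_left hle] at he
    calc n ^ 2 = n * n := by ring
      _ ≤ n * (2 ^ 24 * a) := Nat.mul_le_mul_left _ ha3
      _ ≤ (T + n) * (2 ^ 24 * (6 * L)) := by
          apply Nat.mul_le_mul (by omega)
          apply Nat.mul_le_mul_left
          omega
      _ = (2 ^ 24 * 6) * ((T + n) * L) := by ring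
      _ ≤ _ := Nat.mul_le_mul_right _ (by norm_num)
  · rw [min_eq_right hle] at he
    have h10 : N₁ + 1 ≤ 20 * L := by omega
    have h11 : a ≤ n := by omega
    calc n ^ 2 = n * n := by ring
      _ ≤ n * (2 ^ 24 * a) := Nat.mul_le_mul_left _ ha3
      _ = 2 ^ 24 * (n * a) := by ring
      _ ≤ 2 ^ 24 * ((6 * T + a) * (N₁ + 1)) := Nat.mul_le_mul_left _ h2
      _ ≤ 2 ^ 24 * ((6 * (T + n)) * (20 * L)) := by
          apply Nat.mul_le_mul_left
          exact Nat.mul_le_mul (by omega) h10
      _ = (2 ^ 24 * 120) * ((T + n) * L) := by ring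
      _ ≤ _ := Nat.mul_le_mul_right _ (by norm_num)

/-! ### Satisfying assignments -/

variable {n M ℓ : ℕ}

theorem form_eq_inp (h : Sys n) (nm : Vr n → Fin ℓ → Bool) (idx : Fin M → Cl n)
    (y : Fin n → ZMod 2) : form h nm idx y =
      inp (kap idx) (fun i => match kap (n := n) idx i with
        | none => form h nm idx 0 i
        | some _ => false) (rv h y) := by
  funext i
  unfold inp
  rcases Option.eq_none_or_eq_some (kap idx i) with hk | ⟨r, hk⟩
  · simp only [hk]
    exact (form_kap h nm idx i 0 y).2 (fun r hr => by rw [hk] at hr; simp at hr)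
  · simp only [hk]
    obtain ⟨cc, p, q⟩ := i
    match q with
    | some j => simp [kap] at hk
    | none =>
      change (cl h _ (idx cc) p).2 = _
      change (match (idx cc).2 with
        | none => some (idx cc).1
        | some _ => none) = some r at hk
      revert hk
      obtain ⟨r', sc⟩ := idx cc
      intro hk
      match sc with
      | none =>
        have hk' : some r' = some r := hk
        have hk'' := Option.some.inj hk'
        subst hk''
        change TH706.ST.val (lin h r' y) = xor false (TH706.ST.val (lin h r' y))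
        simp
      | some (s, d) =>
        have hk' : (none : Option (Row n)) = some r := hk
        exact absurd hk' (by simp)

theorem finds_core {h : Sys n} (hE : Expands h) (hI : Inj h) {nm : Vr n → Fin ℓ → Bool}
    {idx : Fin M → Cl n} (hidx : Function.Surjective idx)
    (P : QM (Idx M ℓ) (Fin ℓ → Bool)) (T K π : ℕ)
    (hc : (2 : ℝ) ^ n ≤ 2 ^ π * ∑ y, P.success (form h nm idx y) K T
      (QFinds (form h nm idx y))) :
    n ^ 2 ≤ 2 ^ 31 * ((T + n) * (Nat.log 2 (Fintype.card P.Node * Fintype.card P.Reg) +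
      Nat.log 2 (K + 1) + π + 1)) := by
  refine core hE P (kap idx) (fun i => match kap (n := n) idx i with
        | none => form h nm idx 0 i
        | some _ => false) (fun j => nm (.inl j)) (fun y j => sol h y (.inl j)) ?_
    (fun y => QFinds (form h nm idx y)) ?_ T K π ?_
  · intro y y' j hj
    exact val_inj _ _ hj
  · intro y O hO
    obtain ⟨α, h3, h4⟩ := hO
    have h6 := (form_sat hI nm hidx y α).1 h3
    constructor
    · intro j
      exact ⟨α (nm (.inl j)), (h4 _ (inst_occurs h nm hidx _ j) _).2 rfl⟩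
    · intro j b hb
      rw [(h4 _ (inst_occurs h nm hidx _ j) b).1 hb, h6]
  · refine hc.trans (le_of_eq ?_)
    congr 1
    refine sum_congr rfl fun y _ => ?_
    rw [← form_eq_inp h nm idx y]

open Classical in
/-- **Finding satisfying assignments with a quantum register and a classical stack.** -/
theorem find_main : ∃ D : ℕ, 0 < D ∧ ∀ M ℓ : ℕ, 1 ≤ M → M ≤ 2 ^ ℓ →
    ∃ W : Finset (Idx M ℓ → Bool), W.Nonempty ∧ (∀ w ∈ W, UniqueSat w) ∧
      ∀ (T K π : ℕ) (R : Type) [Fintype R] [Nonempty R]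
        (P : R → QM (Idx M ℓ) (Fin ℓ → Bool)),
        (Fintype.card R * W.card : ℝ) ≤ 2 ^ π * ∑ r, ∑ w ∈ W, (P r).success w K T (QFinds w) →
        ∃ r, M ^ 2 ≤ D * ((T + M) * (Nat.log 2 (Fintype.card (P r).Node *
          Fintype.card (P r).Reg) + Nat.log 2 (K + 1) + π + 1)) := by
  refine ⟨2 ^ 50, by norm_num, ?_⟩
  intro M ℓ hM hℓ
  by_cases hsmall : M < 264
  · refine ⟨{triv M ℓ}, singleton_nonempty _, ?_, ?_⟩
    · intro w hw
      rw [mem_singleton] at hw
      rw [hw]
      exact triv_unique hM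
    · intro T K π R _ _ P hc
      obtain ⟨r⟩ := (inferInstance : Nonempty R)
      refine ⟨r, ?_⟩
      calc M ^ 2 = M * M := by ring
        _ ≤ 264 * M := Nat.mul_le_mul_right _ hsmall.le
        _ ≤ 2 ^ 50 * (M * 1) := by omega
        _ ≤ _ := by
            apply Nat.mul_le_mul_left
            exact Nat.mul_le_mul (by omega) (by omega)
  · push Not at hsmall
    obtain ⟨n, hn⟩ : ∃ n, n = M / 264 := ⟨_, rfl⟩
    have hn1 : 1 ≤ n := by omega
    have hMn : 264 * n ≤ M := by omega
    have hMn' : M ≤ 2 ^ 9 * n + 2 ^ 4 * n := by omega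
    obtain ⟨h, hE, hI⟩ := exists_sys n
    have hne : Nonempty (Cl n) := ⟨((0, ⟨0, hn1⟩), none)⟩
    obtain ⟨⟨nm, hnm⟩, idx, hidx⟩ := exists_places (A := Vr n) (B := Cl n) (ℓ := ℓ) (M := M)
      (by
        simp only [Vr, Row, Fintype.card_sum, Fintype.card_prod, Fintype.card_fin]
        omega)
      (by
        simp only [Cl, Row, Fintype.card_prod, Fintype.card_option, Fintype.card_fin]
        omega)
    have hinj := form_inj hI nm hidx
    refine ⟨univ.image (form h nm idx), ⟨_, mem_image_of_mem _ (mem_univ 0)⟩, ?_, ?_⟩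
    · intro w hw
      rw [mem_image] at hw
      obtain ⟨y, -, rfl⟩ := hw
      refine ⟨fun v => Function.extend nm (sol h y) (fun _ => false) v, ?_, ?_⟩
      · rw [form_sat hI nm hidx]
        intro v
        exact hnm.extend_apply _ _ v
      · intro β hβ v hv
        obtain ⟨u, rfl⟩ := inst_occurs' h nm idx _ hv
        rw [(form_sat hI nm hidx y β).1 hβ u]
        exact (hnm.extend_apply _ _ u).symm
    · intro T K π R _ _ P hc
      have hcard : (univ.image (form (M := M) h nm idx)).card = 2 ^ n := by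
        rw [card_image_of_injective _ hinj, card_univ, Fintype.card_fun, Fintype.card_fin,
          ZMod.card]
      have hsum : ∀ r, ∑ w ∈ univ.image (form (M := M) h nm idx),
          (P r).success w K T (QFinds w) = ∑ y, (P r).success (form h nm idx y) K T
            (QFinds (form h nm idx y)) := by
        intro r
        rw [sum_image fun y _ y' _ hy => hinj hy]
      simp only [hsum, hcard] at hc
      have hex : ∃ r, (2 : ℝ) ^ n ≤ 2 ^ π * ∑ y, (P r).success (form h nm idx y) K T
            (QFinds (form h nm idx y)) := by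
        by_contra hcon
        push Not at hcon
        have h1 : ∑ r : R, 2 ^ π * ∑ y, (P r).success (form h nm idx y) K T
            (QFinds (form h nm idx y)) < ∑ _r : R, (2 : ℝ) ^ n :=
          sum_lt_sum_of_nonempty univ_nonempty fun r _ => hcon r
        rw [← mul_sum, sum_const, card_univ, nsmul_eq_mul] at h1
        push_cast at hc
        linarith
      obtain ⟨r, hr⟩ := hex
      refine ⟨r, ?_⟩
      have h3 := finds_core hE hI hidx (P r) T K π hr
      obtain ⟨L, hL⟩ : ∃ L, L = Nat.log 2 (Fintype.card (P r).Node *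
          Fintype.card (P r).Reg) + Nat.log 2 (K + 1) + π + 1 := ⟨_, rfl⟩
      rw [← hL] at h3 ⊢
      calc M ^ 2 ≤ (2 ^ 9 * n + 2 ^ 4 * n) ^ 2 := Nat.pow_le_pow_left hMn' 2
        _ ≤ 2 ^ 19 * n ^ 2 := by nlinarith
        _ ≤ 2 ^ 19 * (2 ^ 31 * ((T + n) * L)) := Nat.mul_le_mul_left _ h3
        _ ≤ 2 ^ 19 * (2 ^ 31 * ((T + M) * L)) := by
            apply Nat.mul_le_mul_left
            apply Nat.mul_le_mul_left
            apply Nat.mul_le_mul_right
            omega
        _ = _ := by ring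

end Pool.Agent.Y602.QS
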