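import Pool.Agent.Y602.QS.Defs

/-!
# Sums over the lists of outcomes
-/

set_option autoImplicit false
set_option linter.unusedSectionVars false

namespace Pool.Agent.Y602.QS

open Finset
open scoped Matrix

section sumL

variable {Ω : Type} [Fintype Ω]

/-- The sum over all lists of a given length. -/
noncomputable def sumL : ℕ → (List Ω → ℝ) → ℝ
  | 0, f => f []
  | k + 1, f => ∑ u, sumL k (fun l => f (u :: l))

theorem sumL_mono : ∀ (k : ℕ) {f g : List Ω → ℝ} (_ : ∀ l, l.length = k → f l ≤ g l),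
    sumL k f ≤ sumL k g
  | 0, f, g, h => h [] rfl
  | k + 1, f, g, h => sum_le_sum fun u _ => sumL_mono k (fun l hl => h (u :: l) (by simp [hl]))

theorem sumL_congr (k : ℕ) {f g : List Ω → ℝ} (h : ∀ l, l.length = k → f l = g l) :
    sumL k f = sumL k g :=
  le_antisymm (sumL_mono k fun l hl => (h l hl).le) (sumL_mono k fun l hl => (h l hl).ge)

theorem sumL_zero : ∀ k : ℕ, sumL k (fun _ : List Ω => (0 : ℝ)) = 0
  | 0 => rfl
  | k + 1 => by
    simp only [sumL]
    rw [sumL_zero k]
    simp

theorem sumL_nonneg (k : ℕ) {f : List Ω → ℝ} (h : ∀ l, l.length = k → 0 ≤ f l) :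
    0 ≤ sumL k f := by
  rw [← sumL_zero (Ω := Ω) k]
  exact sumL_mono k h

theorem sumL_add : ∀ (a b : ℕ) (f : List Ω → ℝ),
    sumL (a + b) f = sumL a (fun l₁ => sumL b (fun l₂ => f (l₁ ++ l₂)))
  | 0, b, f => by simp [sumL]
  | a + 1, b, f => by
    rw [show a + 1 + b = (a + b) + 1 by ring]
    simp only [sumL]
    refine sum_congr rfl fun u _ => ?_
    rw [sumL_add a b]
    rfl

theorem sumL_mul (c : ℝ) : ∀ (k : ℕ) (f : List Ω → ℝ),
    sumL k (fun l => c * f l) = c * sumL k f
  | 0, f => rfl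
  | k + 1, f => by
    simp only [sumL]
    rw [mul_sum]
    exact sum_congr rfl fun u _ => sumL_mul c k _

theorem sumL_sum {ι : Type} (s : Finset ι) : ∀ (k : ℕ) (f : ι → List Ω → ℝ),
    sumL k (fun l => ∑ i ∈ s, f i l) = ∑ i ∈ s, sumL k (f i)
  | 0, f => rfl
  | k + 1, f => by
    simp only [sumL]
    rw [sum_comm]
    exact sum_congr rfl fun u _ => sumL_sum s k _

end sumL

open Classical in
/-- The indicator of a proposition. -/
noncomputable def ind (p : Prop) : ℝ := if p then 1 else 0

theorem ind_nonneg (p : Prop) : 0 ≤ ind p := by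
  unfold ind; split_ifs <;> norm_num

theorem ind_true {p : Prop} (h : p) : ind p = 1 := by unfold ind; rw [if_pos h]

theorem ind_false {p : Prop} (h : ¬ p) : ind p = 0 := by unfold ind; rw [if_neg h]

theorem ind_le_one (p : Prop) : ind p ≤ 1 := by
  unfold ind; split_ifs <;> norm_num

theorem ind_mono {p q : Prop} (h : p → q) : ind p ≤ ind q := by
  by_cases hp : p
  · rw [ind_true hp, ind_true (h hp)]
  · rw [ind_false hp]; exact ind_nonneg q

/-- The square of the norm. -/
noncomputable def nsq {σ : Type} [Fintype σ] (v : σ → ℂ) : ℝ := ∑ s, ‖v s‖ ^ 2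

section nsq

variable {σ : Type} [Fintype σ] [DecidableEq σ]

theorem nsq_nonneg (v : σ → ℂ) : 0 ≤ nsq v := sum_nonneg fun _ _ => by positivity

theorem nsq_zero : nsq (0 : σ → ℂ) = 0 := by simp [nsq]

theorem nsq_eq (v : σ → ℂ) : (nsq v : ℂ) = star v ⬝ᵥ v := by
  unfold nsq dotProduct
  push_cast
  refine sum_congr rfl fun s _ => ?_
  rw [Pi.star_apply, ← Complex.conj_mul']
  rfl

theorem nsq_mulVec (A : Matrix σ σ ℂ) (v : σ → ℂ) :
    (nsq (A.mulVec v) : ℂ) = star v ⬝ᵥ ((Aᴴ * A).mulVec v) := by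
  rw [nsq_eq, Matrix.star_mulVec, ← Matrix.mulVec_mulVec, ← Matrix.dotProduct_mulVec]

theorem sum_nsq_mulVec {Ω : Type} [Fintype Ω] (A : Ω → Matrix σ σ ℂ)
    (hA : ∑ ω, (A ω)ᴴ * A ω = 1) (v : σ → ℂ) : ∑ ω, nsq ((A ω).mulVec v) = nsq v := by
  have h : ((∑ ω, nsq ((A ω).mulVec v) : ℝ) : ℂ) = (nsq v : ℂ) := by
    push_cast
    simp only [nsq_mulVec]
    rw [← dotProduct_sum, ← Matrix.sum_mulVec, hA, Matrix.one_mulVec, nsq_eq]
  exact_mod_cast h

theorem nsq_comb_le {ι : Type} [Fintype ι] (c : ι → ℂ) (u : ι → σ → ℂ) :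
    nsq (fun s => ∑ i, c i * u i s) ≤ (∑ i, ‖c i‖ ^ 2) * ∑ i, nsq (u i) := by
  unfold nsq
  rw [sum_comm (s := (univ : Finset ι)) (t := (univ : Finset σ)), mul_sum]
  refine sum_le_sum fun s _ => ?_
  have h1 : ‖∑ i, c i * u i s‖ ≤ ∑ i, ‖c i‖ * ‖u i s‖ := by
    refine (norm_sum_le _ _).trans (sum_le_sum fun i _ => ?_)
    rw [norm_mul]
  calc ‖∑ i, c i * u i s‖ ^ 2 ≤ (∑ i, ‖c i‖ * ‖u i s‖) ^ 2 :=
        pow_le_pow_left₀ (norm_nonneg _) h1 2
    _ ≤ _ := Finset.sum_mul_sq_le_sq_mul_sq _ _ _

theorem nsq_single (s : σ) : nsq (Pi.single s (1 : ℂ) : σ → ℂ) = 1 := by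
  unfold nsq
  rw [Finset.sum_eq_single s]
  · simp
  · intro s' _ hs'
    simp [hs']
  · simp

end nsq

namespace QM

variable {ι ω : Type} (P : QM ι ω)

/-- The node and the stack after a list of outcomes. -/
def go : ℕ → P.Node → List P.Sym → List P.Out → Option (P.Node × List P.Sym)
  | _, q, τ, [] => some (q, τ)
  | t, q, τ, u :: l => match P.step t q τ u with
    | none => none
    | some p => go (t + 1) p.1 p.2 l

/-- The state of the register after a list of outcomes. -/
noncomputable def amp (x : ι → Bool) : ℕ → P.Node → List P.Sym → (P.Reg → ℂ) → List P.Out →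
    (P.Reg → ℂ)
  | _, _, _, v, [] => v
  | t, q, τ, v, u :: l => match P.step t q τ u with
    | none => 0
    | some p => amp x (t + 1) p.1 p.2 ((P.op t q u).mulVec (P.ask x t q v)) l

/-- The number of queries along a list of outcomes. -/
def cst : ℕ → P.Node → List P.Sym → List P.Out → ℕ
  | _, _, _, [] => 0
  | t, q, τ, u :: l => match P.step t q τ u with
    | none => 0
    | some p => P.cost t q + cst (t + 1) p.1 p.2 l

/-- The pairs emitted along a list of outcomes. -/
def em : ℕ → P.Node → List P.Sym → List P.Out → Set (ω × Bool)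
  | _, _, _, [] => ∅
  | t, q, τ, u :: l => match P.step t q τ u with
    | none => ∅
    | some p => P.emit t q u ∪ em (t + 1) p.1 p.2 l

theorem go_append : ∀ (l₁ l₂ : List P.Out) (t : ℕ) (q : P.Node) (τ : List P.Sym),
    P.go t q τ (l₁ ++ l₂) = (P.go t q τ l₁).bind (fun p => P.go (t + l₁.length) p.1 p.2 l₂)
  | [], l₂, t, q, τ => by simp [go]
  | u :: l₁, l₂, t, q, τ => by
    simp only [List.cons_append, go]
    cases P.step t q τ u with
    | none => rfl
    | some p =>
      simp only
      rw [go_append l₁ l₂]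
      simp only [List.length_cons]
      congr 1
      funext p'
      congr 1
      omega

theorem go_prefix {l₁ l₂ : List P.Out} {t : ℕ} {q : P.Node} {τ : List P.Sym}
    (h : (P.go t q τ (l₁ ++ l₂)).isSome) : (P.go t q τ l₁).isSome := by
  rw [go_append] at h
  cases hg : P.go t q τ l₁ with
  | none => rw [hg] at h; simp at h
  | some p => rfl

theorem amp_append (x : ι → Bool) : ∀ (l₁ l₂ : List P.Out) (t : ℕ) (q : P.Node)
    (τ : List P.Sym) (v : P.Reg → ℂ) (p : P.Node × List P.Sym) (_ : P.go t q τ l₁ = some p),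
    P.amp x t q τ v (l₁ ++ l₂) = P.amp x (t + l₁.length) p.1 p.2 (P.amp x t q τ v l₁) l₂
  | [], l₂, t, q, τ, v, p, h => by
    simp only [go, Option.some.injEq] at h
    subst h
    simp [amp]
  | u :: l₁, l₂, t, q, τ, v, p, h => by
    simp only [go] at h
    simp only [List.cons_append, amp]
    cases hs : P.step t q τ u with
    | none => rw [hs] at h; simp at h
    | some p' =>
      rw [hs] at h
      simp only at h ⊢
      rw [amp_append x l₁ l₂ _ _ _ _ p h]
      simp only [List.length_cons]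
      congr 1
      omega

theorem amp_of_none (x : ι → Bool) : ∀ (l : List P.Out) (t : ℕ) (q : P.Node)
    (τ : List P.Sym) (v : P.Reg → ℂ) (_ : P.go t q τ l = none), P.amp x t q τ v l = 0
  | [], t, q, τ, v, h => by simp [go] at h
  | u :: l, t, q, τ, v, h => by
    simp only [go] at h
    simp only [amp]
    cases hs : P.step t q τ u with
    | none => rfl
    | some p' =>
      rw [hs] at h
      simp only at h ⊢
      exact amp_of_none x l _ _ _ _ h

/-- The probability as a sum over the lists of outcomes. -/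
theorem prob_eq (x : ι → Bool) : ∀ (k t : ℕ) (q : P.Node) (τ : List P.Sym) (v : P.Reg → ℂ)
    (E : ℕ → Set (ω × Bool) → Prop),
    P.prob x k t q τ v E = sumL k (fun l =>
      ind ((P.go t q τ l).isSome ∧ E (P.cst t q τ l) (P.em t q τ l)) *
        nsq (P.amp x t q τ v l))
  | 0, t, q, τ, v, E => by
    simp only [prob, sumL, go, cst, em, amp, Option.isSome_some, true_and]
    by_cases h : E 0 ∅
    · rw [ind_true h, if_pos h, one_mul]; rfl
    · rw [ind_false h, if_neg h, zero_mul]
  | k + 1, t, q, τ, v, E => by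
    simp only [prob, sumL]
    refine sum_congr rfl fun u _ => ?_
    cases hs : P.step t q τ u with
    | none =>
      simp only
      rw [← sumL_zero (Ω := P.Out) k]
      refine sumL_congr k fun l _ => ?_
      have h1 : P.amp x t q τ v (u :: l) = 0 := by simp only [amp, hs]
      rw [h1, nsq_zero, mul_zero]
    | some p =>
      simp only
      rw [prob_eq x k]
      refine sumL_congr k fun l _ => ?_
      have h1 : P.amp x t q τ v (u :: l) =
        P.amp x (t + 1) p.1 p.2 ((P.op t q u).mulVec (P.ask x t q v)) l := by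
          simp only [amp, hs]
      have h2 : P.go t q τ (u :: l) = P.go (t + 1) p.1 p.2 l := by simp only [go, hs]
      have h3 : P.cst t q τ (u :: l) = P.cost t q + P.cst (t + 1) p.1 p.2 l := by
        simp only [cst, hs]
      have h4 : P.em t q τ (u :: l) = P.emit t q u ∪ P.em (t + 1) p.1 p.2 l := by
        simp only [em, hs]
      rw [h1, h2, h3, h4]

theorem nsq_ask (x : ι → Bool) (t : ℕ) (q : P.Node) (v : P.Reg → ℂ) :
    nsq (P.ask x t q v) = nsq v := by
  unfold nsq ask
  cases P.query t q with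
  | none => rfl
  | some f =>
    refine sum_congr rfl fun s _ => ?_
    simp only
    split_ifs <;> simp

theorem sum_nsq_step (x : ι → Bool) (t : ℕ) (q : P.Node) (v : P.Reg → ℂ) :
    ∑ u, nsq ((P.op t q u).mulVec (P.ask x t q v)) = nsq v := by
  rw [sum_nsq_mulVec _ (P.sum_op t q), nsq_ask]

/-- The norm does not increase. -/
theorem sumL_nsq_amp_le (x : ι → Bool) : ∀ (k t : ℕ) (q : P.Node) (τ : List P.Sym)
    (v : P.Reg → ℂ), sumL k (fun l => nsq (P.amp x t q τ v l)) ≤ nsq v
  | 0, t, q, τ, v => by simp [sumL, amp]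
  | k + 1, t, q, τ, v => by
    rw [← P.sum_nsq_step x t q v]
    simp only [sumL, amp]
    refine sum_le_sum fun u _ => ?_
    cases hs : P.step t q τ u with
    | none =>
      simp only [nsq_zero, sumL_zero]
      exact nsq_nonneg _
    | some p => exact sumL_nsq_amp_le x k _ _ _ _

theorem ask_comb {κ : Type} [Fintype κ] (x : ι → Bool) (t : ℕ) (q : P.Node) (c : κ → ℂ)
    (u : κ → P.Reg → ℂ) :
    P.ask x t q (fun s => ∑ i, c i * u i s) = fun s => ∑ i, c i * P.ask x t q (u i) s := by
  unfold ask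
  cases P.query t q with
  | none => rfl
  | some f =>
    funext s
    simp only
    split_ifs <;> simp

theorem mulVec_comb {κ σ : Type} [Fintype σ] [Fintype κ] (A : Matrix σ σ ℂ) (c : κ → ℂ)
    (u : κ → σ → ℂ) :
    A.mulVec (fun s => ∑ i, c i * u i s) = fun s => ∑ i, c i * (A.mulVec (u i)) s := by
  funext s
  unfold Matrix.mulVec dotProduct
  simp only [mul_sum]
  rw [sum_comm]
  refine sum_congr rfl fun i _ => sum_congr rfl fun s' _ => ?_
  ring

theorem amp_comb {κ : Type} [Fintype κ] (x : ι → Bool) (c : κ → ℂ) : ∀ (l : List P.Out) (t : ℕ)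
    (q : P.Node) (τ : List P.Sym) (u : κ → P.Reg → ℂ),
    P.amp x t q τ (fun s => ∑ i, c i * u i s) l = fun s => ∑ i, c i * P.amp x t q τ (u i) l s
  | [], t, q, τ, u => rfl
  | w :: l, t, q, τ, u => by
    simp only [amp]
    cases hs : P.step t q τ w with
    | none => funext s; simp
    | some p =>
      simp only
      rw [ask_comb, mulVec_comb, amp_comb x c l]

/-- The norm is dominated by those from the basis states. -/
theorem nsq_amp_le (x : ι → Bool) (l : List P.Out) (t : ℕ) (q : P.Node) (τ : List P.Sym)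
    (v : P.Reg → ℂ) :
    nsq (P.amp x t q τ v l) ≤ nsq v * ∑ s, nsq (P.amp x t q τ (Pi.single s 1) l) := by
  have h : v = fun s => ∑ i, v i * (Pi.single i (1 : ℂ) : P.Reg → ℂ) s := by
    funext s
    simp [Pi.single_apply]
  have h1 := P.amp_comb x v l t q τ (fun i => (Pi.single i (1 : ℂ) : P.Reg → ℂ))
  rw [← h] at h1
  rw [h1]
  exact nsq_comb_le _ _

end QM

end Pool.Agent.Y602.QS
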