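import Pool.Agent.Y602.QS.Seg

/-!
# Every productive computation has a productive piece
-/

set_option autoImplicit false
set_option linter.unusedSectionVars false

namespace Pool.Agent.Y602.QS

open Finset
open scoped Matrix

section vis

variable {ω J : Type} [Fintype J]

open Classical in
/-- The outputs `o j` which occur in `E`. -/
noncomputable def vis (o : J → ω) (E : Set (ω × Bool)) : Finset J :=
  univ.filter (fun j => ∃ b, (o j, b) ∈ E)

theorem mem_vis (o : J → ω) (E : Set (ω × Bool)) (j : J) : j ∈ vis o E ↔ ∃ b, (o j, b) ∈ E := by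
  simp [vis]

theorem card_vis_union (o : J → ω) (E F : Set (ω × Bool)) :
    #(vis o (E ∪ F)) ≤ #(vis o E) + #(vis o F) := by
  classical
  refine (card_le_card ?_).trans (card_union_le _ _)
  intro j hj
  rw [mem_vis] at hj
  obtain ⟨b, hb | hb⟩ := hj
  · exact mem_union_left _ ((mem_vis _ _ _).2 ⟨b, hb⟩)
  · exact mem_union_right _ ((mem_vis _ _ _).2 ⟨b, hb⟩)

theorem vis_mono (o : J → ω) {E F : Set (ω × Bool)} (h : E ⊆ F) : vis o E ⊆ vis o F := by
  intro j hj
  rw [mem_vis] at hj ⊢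
  obtain ⟨b, hb⟩ := hj
  exact ⟨b, h hb⟩

end vis

theorem exists_split {α : Type} (l : List α) {t₁ t₂ t₃ t₄ : ℕ} (h12 : t₁ ≤ t₂) (h23 : t₂ ≤ t₃)
    (h34 : t₃ ≤ t₄) (h4 : t₄ ≤ l.length) : ∃ l₀ l₁ lh l₂ l₃ : List α,
      l = l₀ ++ (l₁ ++ (lh ++ (l₂ ++ l₃))) ∧ l₀.length = t₁ ∧ t₁ + l₁.length = t₂ ∧
      t₂ + lh.length = t₃ ∧ t₃ + l₂.length = t₄ := by
  refine ⟨l.take t₁, (l.drop t₁).take (t₂ - t₁), ((l.drop t₁).drop (t₂ - t₁)).take (t₃ - t₂),
    (((l.drop t₁).drop (t₂ - t₁)).drop (t₃ - t₂)).take (t₄ - t₃),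
    (((l.drop t₁).drop (t₂ - t₁)).drop (t₃ - t₂)).drop (t₄ - t₃), ?_, ?_, ?_, ?_, ?_⟩
  · simp only [List.take_append_drop]
  · simp only [List.length_take]; omega
  · simp only [List.length_take, List.length_drop]; omega
  · simp only [List.length_take, List.length_drop]; omega
  · simp only [List.length_take, List.length_drop]; omega

namespace QM

variable {ι ω : Type} (P : QM ι ω)

theorem hAt_of_prefix {A l : List P.Out} (hA : A <+: l) {p : P.Node × List P.Sym}
    (h : P.go 0 P.start [] A = some p) : P.hAt l A.length = p.2.length := by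
  obtain ⟨B, rfl⟩ := hA
  unfold hAt ndAt
  rw [List.take_left, h]

/-- The stack produced by a computation that starts with the empty stack. -/
def rho (t : ℕ) (q : P.Node) (l : List P.Out) : List P.Sym := ((P.go t q [] l).elim [] Prod.snd)

theorem exists_piece {J : Type} [Fintype J] (o : J → ω) {l : List P.Out}
    (hl : (P.go 0 P.start [] l).isSome) {a T g : ℕ} (ha : 2 ≤ a)
    (hT : P.cst 0 P.start [] l ≤ T)
    (hG : (6 * T + a) * g < #(vis o (P.em 0 P.start [] l)) * a) :
    ∃ (l₀ l₁ lh l₂ l₃ : List P.Out) (q₁ : P.Node) (τ₁ : List P.Sym) (q₃ : P.Node),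
      l = l₀ ++ (l₁ ++ (lh ++ (l₂ ++ l₃))) ∧
      P.go 0 P.start [] l₀ = some (q₁, τ₁) ∧
      (∀ x v, P.amp x l₀.length q₁ τ₁ v l₁ = P.amp x l₀.length q₁ [] v l₁) ∧
      P.go 0 P.start [] (l₀ ++ (l₁ ++ lh)) = some (q₃, P.rho l₀.length q₁ l₁ ++ τ₁) ∧
      (∀ x v, P.amp x (l₀.length + l₁.length + lh.length) q₃ (P.rho l₀.length q₁ l₁ ++ τ₁) v l₂ =
        P.amp x (l₀.length + l₁.length + lh.length) q₃ (P.rho l₀.length q₁ l₁) v l₂) ∧
      P.cst l₀.length q₁ [] l₁ + P.cst (l₀.length + l₁.length + lh.length) q₃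
        (P.rho l₀.length q₁ l₁) l₂ ≤ a ∧
      g < #(vis o (P.em l₀.length q₁ [] l₁ ∪
        P.em (l₀.length + l₁.length + lh.length) q₃ (P.rho l₀.length q₁ l₁) l₂)) ∧
      (P.em l₀.length q₁ [] l₁ ∪ P.em (l₀.length + l₁.length + lh.length) q₃
        (P.rho l₀.length q₁ l₁) l₂) ⊆ P.em 0 P.start [] l := by
  classical
  have hfull := P.seg_eq l [] [] P.start [] rfl (by simpa using hl)
  simp only [List.nil_append, List.append_nil, List.length_nil, Nat.zero_add] at hfull
  obtain ⟨hcst, hem⟩ := hfull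
  obtain ⟨t₁, t₂, t₃, t₄, h12, h23, h34, h4, hV1, hV2, hhh, hwt, hgain⟩ :=
    exists_piece_idx (h := P.hAt l) (w := P.wAt l)
      (G := fun S => #(vis o (⋃ r ∈ S, P.eAt l r))) (K := l.length) (a := a) (g := g) ha
      (P.wAt_le l) (P.hAt_step hl) (P.hAt_zero l) (by
        intro A B
        rw [set_biUnion_union]
        exact card_vis_union o _ _) (by
        rw [← hem, ← hcst]
        refine lt_of_le_of_lt ?_ hG
        apply Nat.mul_le_mul_right
        omega)
  obtain ⟨l₀, l₁, lh, l₂, l₃, hsplit, e1, e2, e3, e4⟩ := exists_split l h12 h23 h34 h4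
  -- the states
  have hs0 : (P.go 0 P.start [] l₀).isSome := by
    apply P.go_prefix (l₂ := l₁ ++ (lh ++ (l₂ ++ l₃)))
    rw [← hsplit]; exact hl
  obtain ⟨⟨q₁, τ₁⟩, hq1⟩ := Option.isSome_iff_exists.1 hs0
  have hheight1 : P.hAt l t₁ = τ₁.length := by
    rw [← e1]
    exact P.hAt_of_prefix (by rw [hsplit]; exact List.prefix_append _ _) hq1
  -- the first part
  have hs1 : (P.go l₀.length q₁ τ₁ l₁).isSome := by
    have : (P.go 0 P.start [] (l₀ ++ l₁)).isSome := by
      apply P.go_prefix (l₂ := lh ++ (l₂ ++ l₃))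
      rw [List.append_assoc, ← hsplit]; exact hl
    rw [go_append, hq1] at this
    simpa using this
  obtain ⟨q₂, ρ, r1, r2, r3, r4, r5⟩ := P.rel l₁ l₀.length q₁ [] τ₁ (by
    intro l' hl' p hp
    have k1 : P.go 0 P.start [] (l₀ ++ l') = some p := by
      rw [go_append, hq1]
      simpa using hp
    have k2 : P.hAt l (l₀ ++ l').length = p.2.length := P.hAt_of_prefix (by
      obtain ⟨B, rfl⟩ := hl'
      rw [hsplit]
      exact ⟨B ++ (lh ++ (l₂ ++ l₃)), by simp⟩) k1
    rw [← k2, ← hheight1]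
    apply hV1.2
    · rw [List.length_append]; omega
    · have := hl'.length_le
      rw [List.length_append]; omega) hs1
  rw [List.nil_append] at r2 r3 r4 r5
  -- the hole
  have hq2 : P.go 0 P.start [] (l₀ ++ l₁) = some (q₂, ρ ++ τ₁) := by
    rw [go_append, hq1]
    simpa using r2
  have hheight2 : P.hAt l t₂ = (ρ ++ τ₁).length := by
    rw [← e2, ← e1, ← List.length_append]
    exact P.hAt_of_prefix (by
      rw [hsplit]
      exact ⟨lh ++ (l₂ ++ l₃), by simp⟩) hq2
  have hs2 : (P.go (l₀.length + l₁.length) q₂ (ρ ++ τ₁) lh).isSome := by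
    have : (P.go 0 P.start [] ((l₀ ++ l₁) ++ lh)).isSome := by
      apply P.go_prefix (l₂ := l₂ ++ l₃)
      rw [List.append_assoc, List.append_assoc, ← hsplit]; exact hl
    rw [go_append, hq2] at this
    simpa using this
  obtain ⟨q₃, ρ', s1, s2, s3, -, -⟩ := P.rel lh (l₀.length + l₁.length) q₂ [] (ρ ++ τ₁) (by
    intro l' hl' p hp
    have k1 : P.go 0 P.start [] ((l₀ ++ l₁) ++ l') = some p := by
      rw [go_append, hq2]
      simpa using hp
    have k2 : P.hAt l ((l₀ ++ l₁) ++ l').length = p.2.length := P.hAt_of_prefix (by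
      obtain ⟨B, rfl⟩ := hl'
      rw [hsplit]
      exact ⟨B ++ (l₂ ++ l₃), by simp⟩) k1
    rw [← k2, ← hheight2]
    apply hV2.2
    · rw [List.length_append, List.length_append]; omega
    · have := hl'.length_le
      rw [List.length_append, List.length_append]; omega) hs2
  rw [List.nil_append] at s2 s3
  have hq3 : P.go 0 P.start [] (l₀ ++ l₁ ++ lh) = some (q₃, ρ' ++ (ρ ++ τ₁)) := by
    rw [go_append, hq2]
    simpa using s2
  have hheight3 : P.hAt l t₃ = (ρ' ++ (ρ ++ τ₁)).length := by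
    rw [← e3, ← e2, ← e1, ← List.length_append, ← List.length_append]
    exact P.hAt_of_prefix (by
      rw [hsplit]
      exact ⟨l₂ ++ l₃, by simp⟩) hq3
  have hρ' : ρ' = [] := by
    rw [hhh, hheight2, List.length_append] at hheight3
    rw [List.length_append] at hheight3
    apply List.eq_nil_of_length_eq_zero
    simp only [List.length_append] at hheight3
    omega
  subst hρ'
  rw [List.nil_append] at s2 hq3
  -- the second part
  have hs3 : (P.go (l₀.length + l₁.length + lh.length) q₃ (ρ ++ τ₁) l₂).isSome := by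
    have : (P.go 0 P.start [] ((l₀ ++ l₁ ++ lh) ++ l₂)).isSome := by
      apply P.go_prefix (l₂ := l₃)
      rw [List.append_assoc, List.append_assoc, List.append_assoc, ← hsplit]; exact hl
    rw [go_append, hq3] at this
    simpa [Nat.add_assoc] using this
  obtain ⟨q₄, ρ'', u1, u2, u3, u4, u5⟩ := P.rel l₂ (l₀.length + l₁.length + lh.length) q₃ ρ τ₁ (by
    intro l' hl' p hp
    have k1 : P.go 0 P.start [] ((l₀ ++ l₁ ++ lh) ++ l') = some p := by
      rw [go_append, hq3]
      simpa [Nat.add_assoc] using hp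
    have k2 : P.hAt l ((l₀ ++ l₁ ++ lh) ++ l').length = p.2.length := P.hAt_of_prefix (by
      obtain ⟨B, rfl⟩ := hl'
      rw [hsplit]
      exact ⟨B ++ l₃, by simp⟩) k1
    rw [← k2, ← hheight1]
    apply hV1.2
    · rw [List.length_append, List.length_append, List.length_append]; omega
    · have := hl'.length_le
      rw [List.length_append, List.length_append, List.length_append]; omega) hs3
  -- weights and outputs
  have f1 := P.seg_eq l₁ l₀ (lh ++ (l₂ ++ l₃)) q₁ τ₁ hq1 hs1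
  have f2 := P.seg_eq l₂ (l₀ ++ l₁ ++ lh) l₃ q₃ (ρ ++ τ₁) hq3 (by
    simpa [Nat.add_assoc] using hs3)
  have g1 : l₀ ++ l₁ ++ (lh ++ (l₂ ++ l₃)) = l := by rw [hsplit]; simp
  have g2 : l₀ ++ l₁ ++ lh ++ l₂ ++ l₃ = l := by rw [hsplit]; simp
  have g3 : (l₀ ++ l₁ ++ lh).length = l₀.length + l₁.length + lh.length := by
    rw [List.length_append, List.length_append]
  rw [g1, r4, r5] at f1
  rw [g2, g3, u4, u5] at f2
  have n1 : l₀.length + l₁.length = t₂ := by omega
  have n2 : l₀.length + l₁.length + lh.length = t₃ := by omega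
  have n3 : l₀.length + l₁.length + lh.length + l₂.length = t₄ := by omega
  rw [n3, n2] at f2
  rw [n1, e1] at f1
  have hrho : P.rho l₀.length q₁ l₁ = ρ := by
    unfold rho
    rw [r1]
    rfl
  refine ⟨l₀, l₁, lh, l₂, l₃, q₁, τ₁, q₃, hsplit, hq1, r3, ?_, ?_, ?_, ?_, ?_⟩
  · rw [← List.append_assoc, hq3, hrho]
  · rw [hrho]; exact u3
  · rw [n2, hrho, e1, f1.1, f2.1]
    exact hwt
  · rw [n2, hrho, e1, f1.2, f2.2, ← set_biUnion_union]
    exact hgain
  · rw [n2, hrho, e1, f1.2, f2.2, ← set_biUnion_union, hem]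
    intro y hy
    rw [Set.mem_iUnion₂] at hy ⊢
    obtain ⟨r, hr, hy⟩ := hy
    refine ⟨r, ?_, hy⟩
    rw [mem_union, mem_Ico, mem_Ico] at hr
    rw [mem_Ico]
    omega

end QM

end Pool.Agent.Y602.QS
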