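import Pool.Agent.Y602.QS.Path
import Pool.Agent.Y602.QS.Cut

/-!
# The pieces of a list of outcomes
-/

set_option autoImplicit false
set_option linter.unusedSectionVars false

namespace Pool.Agent.Y602.QS

open Finset
open scoped Matrix

/-- If the pieces gain little then the whole computation gains little. -/
theorem exists_piece_idx {h w : ℕ → ℕ} {G : Finset ℕ → ℕ} {K a g : ℕ} (ha : 2 ≤ a)
    (hw : ∀ r, w r ≤ 1) (hstep : ∀ r, h (r + 1) ≤ h r + 1 ∧ h r ≤ h (r + 1) + 1)
    (h0 : h 0 = 0) (Gsub : ∀ A B, G (A ∪ B) ≤ G A + G B)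
    (hG : (6 * Wt w 0 K + a) * g < G (Ico 0 K) * a) :
    ∃ t₁ t₂ t₃ t₄, t₁ ≤ t₂ ∧ t₂ ≤ t₃ ∧ t₃ ≤ t₄ ∧ t₄ ≤ K ∧ Val h t₁ t₄ ∧ Val h t₂ t₃ ∧
      h t₃ = h t₂ ∧ Wt w t₁ t₂ + Wt w t₃ t₄ ≤ a ∧ g < G (Ico t₁ t₂ ∪ Ico t₃ t₄) := by
  by_contra hcon
  push Not at hcon
  have hV : Val h 0 K := ⟨Nat.zero_le _, fun r _ _ => by rw [h0]; exact Nat.zero_le _⟩
  obtain ⟨n, t₂, t₃, h1, h2, h3, h4, h5, h6, h7, h8⟩ := cut_aux ha hw hstep Gsub hcon (K - 0) 0 K
    rfl le_rfl hV
  have h9 : G (Ico 0 t₂ ∪ Ico t₃ K) ≤ g := by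
    rcases h5 with h5 | h5
    · exact hcon 0 t₂ t₃ K h1 h2 h3 le_rfl hV h4 h5 h6
    · have h10 := hcon 0 t₂ t₂ t₂ h1 le_rfl le_rfl (by omega)
        ⟨h1, fun r hr hr' => by rw [h0]; exact Nat.zero_le _⟩
        ⟨le_rfl, fun r hr hr' => by
          have : r = t₂ := by omega
          rw [this]⟩ rfl (by rw [Wt_self]; omega)
      rw [h5, Ico_self]
      rwa [Ico_self] at h10
  have h10 := h7 ∅
  rw [union_empty, union_empty] at h10
  have h11 : G (Ico 0 K) ≤ (n + 1) * g := by
    rw [Nat.add_mul, one_mul]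
    omega
  have h12 : (n + 1) * a ≤ 6 * Wt w 0 K + a := by
    rw [Nat.add_mul, one_mul]
    rcases h8 with ⟨h8, -⟩ | h8
    · subst h8
      omega
    · omega
  have h13 : G (Ico 0 K) * a ≤ (6 * Wt w 0 K + a) * g := by
    calc G (Ico 0 K) * a ≤ (n + 1) * g * a := Nat.mul_le_mul_right _ h11
      _ = (n + 1) * a * g := by ring
      _ ≤ (6 * Wt w 0 K + a) * g := Nat.mul_le_mul_right _ h12
  omega

namespace QM

variable {ι ω : Type} (P : QM ι ω)

theorem go_cons (t : ℕ) (q : P.Node) (τ : List P.Sym) (u : P.Out) (l : List P.Out) :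
    P.go t q τ (u :: l) = (P.step t q τ u).bind (fun p => P.go (t + 1) p.1 p.2 l) := by
  simp only [go]
  cases P.step t q τ u <;> rfl

theorem go_singleton (t : ℕ) (q : P.Node) (τ : List P.Sym) (u : P.Out) :
    P.go t q τ [u] = P.step t q τ u := by
  simp only [go]
  cases P.step t q τ u <;> rfl

/-- A computation which does not go below its base does not depend on what is below the base. -/
theorem rel : ∀ (l : List P.Out) (t : ℕ) (q : P.Node) (ρ τ : List P.Sym)
    (_ : ∀ l', l' <+: l → ∀ p, P.go t q (ρ ++ τ) l' = some p → τ.length ≤ p.2.length)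
    (_ : (P.go t q (ρ ++ τ) l).isSome), ∃ q' ρ', P.go t q ρ l = some (q', ρ') ∧
      P.go t q (ρ ++ τ) l = some (q', ρ' ++ τ) ∧
      (∀ x v, P.amp x t q (ρ ++ τ) v l = P.amp x t q ρ v l) ∧
      P.cst t q (ρ ++ τ) l = P.cst t q ρ l ∧ P.em t q (ρ ++ τ) l = P.em t q ρ l := by
  intro l
  induction l with
  | nil =>
    intro t q ρ τ _ _
    exact ⟨q, ρ, rfl, rfl, fun _ _ => rfl, rfl, rfl⟩
  | cons u l ih =>
    intro t q ρ τ hp hs
    have key : ∃ q' ρ', P.step t q ρ u = some (q', ρ') ∧
        P.step t q (ρ ++ τ) u = some (q', ρ' ++ τ) := by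
      rw [go_cons] at hs
      have hp1 := hp [u] (by simp)
      rw [go_singleton] at hp1
      unfold step at hs hp1 ⊢
      cases hact : P.act t q u with
      | goto q' => exact ⟨q', ρ, rfl, rfl⟩
      | push a q' => exact ⟨q', a :: ρ, rfl, rfl⟩
      | pop nxt =>
        rw [hact] at hs hp1
        match ρ with
        | a :: ρ' => exact ⟨nxt a, ρ', rfl, rfl⟩
        | [] =>
          match τ with
          | [] => simp at hs
          | a :: τ' =>
            have := hp1 (nxt a, τ') rfl
            simp at this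
    obtain ⟨q', ρ', h1, h2⟩ := key
    have hp' : ∀ l', l' <+: l → ∀ p, P.go (t + 1) q' (ρ' ++ τ) l' = some p →
        τ.length ≤ p.2.length := by
      intro l' hl' p hgo
      apply hp (u :: l') (by rwa [List.cons_prefix_cons, and_iff_right rfl]) p
      rw [go_cons, h2]
      exact hgo
    have hs' : (P.go (t + 1) q' (ρ' ++ τ) l).isSome := by
      rw [go_cons, h2] at hs
      exact hs
    obtain ⟨q'', ρ'', i1, i2, i3, i4, i5⟩ := ih (t + 1) q' ρ' τ hp' hs'
    refine ⟨q'', ρ'', ?_, ?_, ?_, ?_, ?_⟩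
    · rw [go_cons, h1]; exact i1
    · rw [go_cons, h2]; exact i2
    · intro x v
      simp only [amp, h1, h2]
      exact i3 _ _
    · simp only [cst, h1, h2]
      rw [i4]
    · simp only [em, h1, h2]
      rw [i5]

variable (l : List P.Out)

/-- The node and the stack at time `r`. -/
def ndAt (r : ℕ) : Option (P.Node × List P.Sym) := P.go 0 P.start [] (l.take r)

/-- The height of the stack at time `r`. -/
def hAt (r : ℕ) : ℕ := match P.ndAt l r with
  | some p => p.2.length
  | none => 0

/-- The number of queries in the step at time `r`. -/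
def wAt (r : ℕ) : ℕ := if r < l.length then (match P.ndAt l r with
  | some p => P.cost r p.1
  | none => 0) else 0

/-- The pairs emitted in the step at time `r`. -/
def eAt (r : ℕ) : Set (ω × Bool) := match l[r]?, P.ndAt l r with
  | some u, some p => P.emit r p.1 u
  | _, _ => ∅

theorem wAt_le (r : ℕ) : P.wAt l r ≤ 1 := by
  unfold wAt
  split_ifs
  · cases P.ndAt l r with
    | none => simp
    | some p =>
      simp only
      unfold cost
      split_ifs <;> omega
  · omega

theorem hAt_zero : P.hAt l 0 = 0 := by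
  unfold hAt ndAt
  simp [go]

theorem step_length {t : ℕ} {q : P.Node} {τ : List P.Sym} {u : P.Out}
    {p : P.Node × List P.Sym} (h : P.step t q τ u = some p) :
    p.2.length ≤ τ.length + 1 ∧ τ.length ≤ p.2.length + 1 := by
  unfold step at h
  cases hact : P.act t q u with
  | goto q' => rw [hact] at h; simp only [Option.some.injEq] at h; subst h; simp
  | push a q' => rw [hact] at h; simp only [Option.some.injEq] at h; subst h; simp; omega
  | pop nxt =>
    rw [hact] at h
    match τ with
    | [] => simp at h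
    | a :: τ' => simp only [Option.some.injEq] at h; subst h; simp; omega

variable {l}

theorem ndAt_isSome (hl : (P.go 0 P.start [] l).isSome) (r : ℕ) : (P.ndAt l r).isSome := by
  unfold ndAt
  apply P.go_prefix (l₂ := l.drop r)
  rwa [List.take_append_drop]

theorem hAt_step (hl : (P.go 0 P.start [] l).isSome) (r : ℕ) :
    P.hAt l (r + 1) ≤ P.hAt l r + 1 ∧ P.hAt l r ≤ P.hAt l (r + 1) + 1 := by
  by_cases hr : r < l.length
  · have h1 : l.take (r + 1) = l.take r ++ [l[r]] := by
      rw [List.take_append_getElem hr]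
    obtain ⟨p, hp⟩ := Option.isSome_iff_exists.1 (P.ndAt_isSome hl r)
    obtain ⟨p', hp'⟩ := Option.isSome_iff_exists.1 (P.ndAt_isSome hl (r + 1))
    unfold hAt
    rw [hp, hp']
    simp only
    unfold ndAt at hp hp'
    rw [h1, go_append, hp] at hp'
    rw [Option.bind_some, go_singleton] at hp'
    exact P.step_length hp'
  · have h1 : l.take (r + 1) = l.take r := by
      rw [List.take_of_length_le (by omega), List.take_of_length_le (by omega)]
    have h2 : P.hAt l (r + 1) = P.hAt l r := by
      unfold hAt ndAt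
      rw [h1]
    omega

theorem seg_eq : ∀ (l₁ l₀ l₂ : List P.Out) (q : P.Node) (τ : List P.Sym)
    (_ : P.go 0 P.start [] l₀ = some (q, τ)) (_ : (P.go l₀.length q τ l₁).isSome),
    P.cst l₀.length q τ l₁ = Wt (P.wAt (l₀ ++ l₁ ++ l₂)) l₀.length (l₀.length + l₁.length) ∧
    P.em l₀.length q τ l₁ =
      ⋃ r ∈ Ico l₀.length (l₀.length + l₁.length), P.eAt (l₀ ++ l₁ ++ l₂) r := by
  intro l₁
  induction l₁ with
  | nil =>
    intro l₀ l₂ q τ _ _
    simp [cst, em, Wt_self]
  | cons u l₁ ih =>
    intro l₀ l₂ q τ h hs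
    rw [go_cons] at hs
    cases hst : P.step l₀.length q τ u with
    | none => rw [hst] at hs; simp at hs
    | some p =>
      rw [hst] at hs
      simp only [Option.bind_some] at hs
      obtain ⟨q', τ'⟩ := p
      have h1 : P.go 0 P.start [] (l₀ ++ [u]) = some (q', τ') := by
        rw [go_append, h, Option.bind_some, go_singleton, Nat.zero_add, hst]
      have h2 := ih (l₀ ++ [u]) l₂ q' τ' h1 (by
        rw [List.length_append, List.length_singleton]; exact hs)
      have e1 : l₀ ++ [u] ++ l₁ ++ l₂ = l₀ ++ (u :: l₁) ++ l₂ := by simp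
      have e2 : (l₀ ++ [u]).length = l₀.length + 1 := by simp
      rw [e1, e2] at h2
      have e3 : l₀.length + (u :: l₁).length = l₀.length + 1 + l₁.length := by
        simp only [List.length_cons]; omega
      rw [e3]
      have hnd : P.ndAt (l₀ ++ (u :: l₁) ++ l₂) l₀.length = some (q, τ) := by
        unfold ndAt
        rw [List.append_assoc, List.take_left, h]
      constructor
      · simp only [cst, hst]
        rw [h2.1, Wt_add _ (Nat.le_succ l₀.length) (by omega), Wt_one]
        congr 1
        unfold wAt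
        rw [if_pos (by simp), hnd]
      · simp only [em, hst]
        rw [h2.2]
        have e4 : Ico l₀.length (l₀.length + 1 + l₁.length) =
            insert l₀.length (Ico (l₀.length + 1) (l₀.length + 1 + l₁.length)) := by
          ext r
          simp only [mem_insert, mem_Ico]
          omega
        rw [e4, set_biUnion_insert]
        congr 1
        unfold eAt
        rw [hnd]
        simp

end QM

end Pool.Agent.Y602.QS
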