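import Pool.Agent.Y602.QS.Class

/-!
# The union bound
-/

set_option autoImplicit false
set_option linter.unusedSectionVars false

namespace Pool.Agent.Y602.QS

open Finset
open scoped Matrix
open Pool.Agent.TH706.ST

section

variable {n : ℕ} {ι ω : Type} (P : QM ι ω)

theorem sumL_append_le (x : ι → Bool) (k : ℕ) (A : List P.Out) (q : P.Node)
    (τ : List P.Sym) (v : P.Reg → ℂ) :
    sumL k (fun l => nsq (P.amp x 0 q τ v (A ++ l))) ≤ nsq (P.amp x 0 q τ v A) := by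
  cases hg : P.go 0 q τ A with
  | none =>
    have h1 : ∀ l, nsq (P.amp x 0 q τ v (A ++ l)) = 0 := by
      intro l
      rw [P.amp_of_none x (A ++ l) 0 q τ v, nsq_zero]
      rw [P.go_append, hg]
      rfl
    rw [sumL_congr k (fun l _ => h1 l), sumL_zero]
    exact nsq_nonneg _
  | some p =>
    have h1 : ∀ l, nsq (P.amp x 0 q τ v (A ++ l)) =
        nsq (P.amp x (0 + A.length) p.1 p.2 (P.amp x 0 q τ v A) l) := by
      intro l
      rw [P.amp_append x A l 0 q τ v p hg]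
    rw [sumL_congr k (fun l _ => h1 l)]
    exact P.sumL_nsq_amp_le x k _ _ _ _

/-- The class of a piece. -/
def PC (o : Fin n → ω) (f : (Fin n → ZMod 2) → Fin n → Bool) (a e : ℕ)
    (X : (Fin n → ZMod 2) → ι → Bool) (y : Fin n → ZMod 2) (l₀ l₁ lh l₂ : List P.Out) : Prop :=
  ∃ (q₁ : P.Node) (τ₁ : List P.Sym) (q₃ : P.Node),
    P.go 0 P.start [] l₀ = some (q₁, τ₁) ∧
    (∀ v, P.amp (X y) l₀.length q₁ τ₁ v l₁ = P.amp (X y) l₀.length q₁ [] v l₁) ∧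
    P.go 0 P.start [] (l₀ ++ (l₁ ++ lh)) = some (q₃, P.rho l₀.length q₁ l₁ ++ τ₁) ∧
    (∀ v, P.amp (X y) (l₀.length + l₁.length + lh.length) q₃ (P.rho l₀.length q₁ l₁ ++ τ₁) v l₂ =
      P.amp (X y) (l₀.length + l₁.length + lh.length) q₃ (P.rho l₀.length q₁ l₁) v l₂) ∧
    gd P o f a e l₀.length (l₀.length + l₁.length + lh.length) q₁ q₃ l₁ l₂ y

theorem class_le (o : Fin n → ω) (f : (Fin n → ZMod 2) → Fin n → Bool) (a e : ℕ)
    (X : (Fin n → ZMod 2) → ι → Bool) (y : Fin n → ZMod 2) (t₁ k₁ kh k₂ k₃ : ℕ) :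
    sumL (t₁ + (k₁ + (kh + (k₂ + k₃)))) (fun l => ind (∃ l₀ l₁ lh l₂ l₃ : List P.Out,
      l = l₀ ++ (l₁ ++ (lh ++ (l₂ ++ l₃))) ∧ l₀.length = t₁ ∧ l₁.length = k₁ ∧ lh.length = kh ∧
      l₂.length = k₂ ∧ PC P o f a e X y l₀ l₁ lh l₂) *
        nsq (P.amp (X y) 0 P.start [] P.init l)) ≤
      ∑ q₁, ∑ q₃, Psi P o f a e X t₁ k₁ (t₁ + k₁ + kh) k₂ q₁ q₃ y := by
  set A : List P.Out → ℝ := fun l => nsq (P.amp (X y) 0 P.start [] P.init l) with hA
  have hA0 : ∀ l, 0 ≤ A l := fun l => nsq_nonneg _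
  set S1 : P.Node → List P.Out → ℝ := fun q₁ l₁ =>
    ∑ s, nsq (P.amp (X y) t₁ q₁ [] (Pi.single s 1) l₁) with hS1
  set S2 : P.Node → P.Node → List P.Out → ℝ := fun q₁ q₃ l₁ =>
    sumL k₂ (fun l₂ => ind (gd P o f a e t₁ (t₁ + k₁ + kh) q₁ q₃ l₁ l₂ y) *
      ∑ s', nsq (P.amp (X y) (t₁ + k₁ + kh) q₃ (P.rho t₁ q₁ l₁) (Pi.single s' 1) l₂)) with hS2
  have hS10 : ∀ q₁ l₁, 0 ≤ S1 q₁ l₁ := fun q₁ l₁ => sum_nonneg fun _ _ => nsq_nonneg _
  have hS20 : ∀ q₁ q₃ l₁, 0 ≤ S2 q₁ q₃ l₁ := fun q₁ q₃ l₁ => sumL_nonneg _ fun _ _ =>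
    mul_nonneg (ind_nonneg _) (sum_nonneg fun _ _ => nsq_nonneg _)
  have hPsi : ∀ q₁ q₃, Psi P o f a e X t₁ k₁ (t₁ + k₁ + kh) k₂ q₁ q₃ y =
      sumL k₁ (fun l₁ => S1 q₁ l₁ * S2 q₁ q₃ l₁) := fun _ _ => rfl
  -- step B
  have stepB : ∀ l₀ l₁ lh : List P.Out, l₀.length = t₁ → l₁.length = k₁ → lh.length = kh →
      ∀ (q₁ : P.Node) (τ₁ : List P.Sym), P.go 0 P.start [] l₀ = some (q₁, τ₁) →
      sumL k₂ (fun l₂ => ind (PC P o f a e X y l₀ l₁ lh l₂) * A (l₀ ++ (l₁ ++ (lh ++ l₂)))) ≤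
        A (l₀ ++ (l₁ ++ lh)) * ∑ q₃, S2 q₁ q₃ l₁ := by
    intro l₀ l₁ lh h0 h1 hh q₁ τ₁ hgo
    cases hg : P.go 0 P.start [] (l₀ ++ (l₁ ++ lh)) with
    | none =>
      have e1 : ∀ l₂, ind (PC P o f a e X y l₀ l₁ lh l₂) * A (l₀ ++ (l₁ ++ (lh ++ l₂))) = 0 := by
        intro l₂
        rw [ind_false, zero_mul]
        rintro ⟨_, _, _, -, -, h3, -⟩
        rw [hg] at h3
        simp at h3
      rw [sumL_congr k₂ (fun l₂ _ => e1 l₂), sumL_zero]
      exact mul_nonneg (hA0 _) (sum_nonneg fun _ _ => hS20 _ _ _)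
    | some p =>
      have e1 : ∀ l₂, ind (PC P o f a e X y l₀ l₁ lh l₂) * A (l₀ ++ (l₁ ++ (lh ++ l₂))) ≤
          A (l₀ ++ (l₁ ++ lh)) * (ind (gd P o f a e t₁ (t₁ + k₁ + kh) q₁ p.1 l₁ l₂ y) *
            ∑ s', nsq (P.amp (X y) (t₁ + k₁ + kh) p.1 (P.rho t₁ q₁ l₁) (Pi.single s' 1) l₂)) := by
        intro l₂
        by_cases hPC : PC P o f a e X y l₀ l₁ lh l₂
        · rw [ind_true hPC, one_mul]
          obtain ⟨q₁', τ₁', q₃, h3, h4, h5, h6, h7⟩ := hPC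
          rw [hgo] at h3
          simp only [Option.some.injEq, Prod.mk.injEq] at h3
          obtain ⟨rfl, rfl⟩ := h3
          rw [hg] at h5
          simp only [Option.some.injEq] at h5
          subst h5
          rw [h0, h1, hh] at h6 h7
          rw [ind_true h7, one_mul]
          have e2 : A (l₀ ++ (l₁ ++ (lh ++ l₂))) =
              nsq (P.amp (X y) (t₁ + k₁ + kh) q₃ (P.rho t₁ q₁ l₁)
                (P.amp (X y) 0 P.start [] P.init (l₀ ++ (l₁ ++ lh))) l₂) := by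
            simp only [hA]
            have z1 : l₀ ++ (l₁ ++ (lh ++ l₂)) = (l₀ ++ (l₁ ++ lh)) ++ l₂ := by simp
            rw [z1, P.amp_append (X y) _ _ _ _ _ _ _ hg]
            have z2 : 0 + (l₀ ++ (l₁ ++ lh)).length = t₁ + k₁ + kh := by
              simp only [List.length_append]; omega
            rw [z2, h0]
            rw [h6]
          rw [e2]
          exact P.nsq_amp_le _ _ _ _ _ _
        · rw [ind_false hPC, zero_mul]
          exact mul_nonneg (hA0 _) (mul_nonneg (ind_nonneg _) (sum_nonneg fun _ _ => nsq_nonneg _))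
      calc _ ≤ sumL k₂ (fun l₂ => A (l₀ ++ (l₁ ++ lh)) *
            (ind (gd P o f a e t₁ (t₁ + k₁ + kh) q₁ p.1 l₁ l₂ y) *
            ∑ s', nsq (P.amp (X y) (t₁ + k₁ + kh) p.1 (P.rho t₁ q₁ l₁) (Pi.single s' 1) l₂))) :=
            sumL_mono _ fun l₂ _ => e1 l₂
        _ = A (l₀ ++ (l₁ ++ lh)) * S2 q₁ p.1 l₁ := by rw [sumL_mul]
        _ ≤ _ := by
            apply mul_le_mul_of_nonneg_left _ (hA0 _)
            exact single_le_sum (f := fun q₃ => S2 q₁ q₃ l₁) (fun q₃ _ => hS20 _ _ _)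
              (mem_univ p.1)
  -- steps C and D
  have stepD : ∀ l₀ l₁ : List P.Out, l₀.length = t₁ → l₁.length = k₁ →
      ∀ (q₁ : P.Node) (τ₁ : List P.Sym), P.go 0 P.start [] l₀ = some (q₁, τ₁) →
      sumL kh (fun lh => sumL k₂ (fun l₂ => ind (PC P o f a e X y l₀ l₁ lh l₂) *
        A (l₀ ++ (l₁ ++ (lh ++ l₂))))) ≤ A l₀ * (S1 q₁ l₁ * ∑ q₃, S2 q₁ q₃ l₁) := by
    intro l₀ l₁ h0 h1 q₁ τ₁ hgo
    by_cases hrel : ∀ v, P.amp (X y) l₀.length q₁ τ₁ v l₁ = P.amp (X y) l₀.length q₁ [] v l₁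
    · calc _ ≤ sumL kh (fun lh => (∑ q₃, S2 q₁ q₃ l₁) * A (l₀ ++ (l₁ ++ lh))) := by
            apply sumL_mono
            intro lh hh
            rw [mul_comm]
            exact stepB l₀ l₁ lh h0 h1 hh q₁ τ₁ hgo
        _ = (∑ q₃, S2 q₁ q₃ l₁) * sumL kh (fun lh => A (l₀ ++ (l₁ ++ lh))) := by rw [sumL_mul]
        _ ≤ (∑ q₃, S2 q₁ q₃ l₁) * A (l₀ ++ l₁) := by
            apply mul_le_mul_of_nonneg_left _ (sum_nonneg fun _ _ => hS20 _ _ _)
            have := sumL_append_le P (X y) kh (l₀ ++ l₁) P.start [] P.init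
            simp only [List.append_assoc] at this
            exact this
        _ ≤ (∑ q₃, S2 q₁ q₃ l₁) * (A l₀ * S1 q₁ l₁) := by
            apply mul_le_mul_of_nonneg_left _ (sum_nonneg fun _ _ => hS20 _ _ _)
            simp only [hA, hS1]
            rw [P.amp_append (X y) _ _ _ _ _ _ _ hgo, Nat.zero_add, hrel, h0]
            exact P.nsq_amp_le _ _ _ _ _ _
        _ = _ := by ring
    · have e1 : ∀ lh l₂, ind (PC P o f a e X y l₀ l₁ lh l₂) * A (l₀ ++ (l₁ ++ (lh ++ l₂))) = 0 := by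
        intro lh l₂
        rw [ind_false, zero_mul]
        rintro ⟨q₁', τ₁', q₃, h3, h4, -⟩
        rw [hgo] at h3
        simp only [Option.some.injEq, Prod.mk.injEq] at h3
        obtain ⟨rfl, rfl⟩ := h3
        exact hrel h4
      have e2 : sumL kh (fun lh => sumL k₂ (fun l₂ => ind (PC P o f a e X y l₀ l₁ lh l₂) *
          A (l₀ ++ (l₁ ++ (lh ++ l₂))))) = 0 := by
        rw [← sumL_zero (Ω := P.Out) kh]
        refine sumL_congr _ fun lh _ => ?_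
        rw [sumL_congr k₂ (fun l₂ _ => e1 lh l₂), sumL_zero]
      rw [e2]
      exact mul_nonneg (hA0 _) (mul_nonneg (hS10 _ _) (sum_nonneg fun _ _ => hS20 _ _ _))
  -- step E
  have hPsi0 : ∀ q₁ q₃, 0 ≤ Psi P o f a e X t₁ k₁ (t₁ + k₁ + kh) k₂ q₁ q₃ y :=
    fun q₁ q₃ => Psi_nonneg P o f a e X t₁ k₁ (t₁ + k₁ + kh) k₂ q₁ q₃ y
  have stepE : ∀ l₀ : List P.Out, l₀.length = t₁ →
      sumL k₁ (fun l₁ => sumL kh (fun lh => sumL k₂ (fun l₂ =>
        ind (PC P o f a e X y l₀ l₁ lh l₂) * A (l₀ ++ (l₁ ++ (lh ++ l₂)))))) ≤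
        (∑ q₁, ∑ q₃, Psi P o f a e X t₁ k₁ (t₁ + k₁ + kh) k₂ q₁ q₃ y) * A l₀ := by
    intro l₀ h0
    cases hg : P.go 0 P.start [] l₀ with
    | none =>
      have e1 : ∀ l₁ lh l₂, ind (PC P o f a e X y l₀ l₁ lh l₂) *
          A (l₀ ++ (l₁ ++ (lh ++ l₂))) = 0 := by
        intro l₁ lh l₂
        rw [ind_false, zero_mul]
        rintro ⟨q₁', τ₁', q₃, h3, -⟩
        rw [hg] at h3
        simp at h3
      have e2 : sumL k₁ (fun l₁ => sumL kh (fun lh => sumL k₂ (fun l₂ =>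
          ind (PC P o f a e X y l₀ l₁ lh l₂) * A (l₀ ++ (l₁ ++ (lh ++ l₂)))))) = 0 := by
        rw [← sumL_zero (Ω := P.Out) k₁]
        refine sumL_congr _ fun l₁ _ => ?_
        rw [← sumL_zero (Ω := P.Out) kh]
        refine sumL_congr _ fun lh _ => ?_
        rw [sumL_congr k₂ (fun l₂ _ => e1 l₁ lh l₂), sumL_zero]
      rw [e2]
      exact mul_nonneg (sum_nonneg fun q₁ _ => sum_nonneg fun q₃ _ => hPsi0 q₁ q₃) (hA0 _)
    | some p =>
      obtain ⟨q₁, τ₁⟩ := p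
      calc _ ≤ sumL k₁ (fun l₁ => A l₀ * (S1 q₁ l₁ * ∑ q₃, S2 q₁ q₃ l₁)) :=
            sumL_mono _ fun l₁ h1 => stepD l₀ l₁ h0 h1 q₁ τ₁ hg
        _ = A l₀ * sumL k₁ (fun l₁ => ∑ q₃, S1 q₁ l₁ * S2 q₁ q₃ l₁) := by
            rw [sumL_mul]
            congr 1
            refine sumL_congr _ fun l₁ _ => ?_
            rw [mul_sum]
        _ = A l₀ * ∑ q₃, Psi P o f a e X t₁ k₁ (t₁ + k₁ + kh) k₂ q₁ q₃ y := by
            rw [sumL_sum]
            simp only [hPsi]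
        _ ≤ A l₀ * ∑ q₁, ∑ q₃, Psi P o f a e X t₁ k₁ (t₁ + k₁ + kh) k₂ q₁ q₃ y := by
            apply mul_le_mul_of_nonneg_left _ (hA0 _)
            exact single_le_sum (f := fun q₁ => ∑ q₃, Psi P o f a e X t₁ k₁ (t₁ + k₁ + kh) k₂ q₁
              q₃ y) (fun q₁ _ => sum_nonneg fun q₃ _ => hPsi0 q₁ q₃) (mem_univ q₁)
        _ = _ := mul_comm _ _
  -- the whole sum
  calc _ ≤ sumL t₁ (fun l₀ => sumL k₁ (fun l₁ => sumL kh (fun lh => sumL k₂ (fun l₂ =>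
        sumL k₃ (fun l₃ => ind (PC P o f a e X y l₀ l₁ lh l₂) *
          A ((l₀ ++ (l₁ ++ (lh ++ l₂))) ++ l₃)))))) := by
        rw [sumL_add]
        refine sumL_mono _ fun l₀ h0 => ?_
        rw [sumL_add]
        refine sumL_mono _ fun l₁ h1 => ?_
        rw [sumL_add]
        refine sumL_mono _ fun lh hh => ?_
        rw [sumL_add]
        refine sumL_mono _ fun l₂ h2 => ?_
        refine sumL_mono _ fun l₃ h3 => ?_
        have z1 : (l₀ ++ (l₁ ++ (lh ++ l₂))) ++ l₃ = l₀ ++ (l₁ ++ (lh ++ (l₂ ++ l₃))) := by simp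
        rw [z1]
        apply mul_le_mul_of_nonneg_right _ (hA0 _)
        apply ind_mono
        rintro ⟨m₀, m₁, mh, m₂, m₃, heq, g0, g1, gh, g2, hPC⟩
        obtain ⟨r0, heq1⟩ := List.append_inj heq (h0.trans g0.symm)
        obtain ⟨r1, heq2⟩ := List.append_inj heq1 (h1.trans g1.symm)
        obtain ⟨r2, heq3⟩ := List.append_inj heq2 (hh.trans gh.symm)
        obtain ⟨r3, -⟩ := List.append_inj heq3 (h2.trans g2.symm)
        rw [r0, r1, r2, r3]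
        exact hPC
    _ ≤ sumL t₁ (fun l₀ => sumL k₁ (fun l₁ => sumL kh (fun lh => sumL k₂ (fun l₂ =>
        ind (PC P o f a e X y l₀ l₁ lh l₂) * A (l₀ ++ (l₁ ++ (lh ++ l₂))))))) := by
        refine sumL_mono _ fun l₀ _ => sumL_mono _ fun l₁ _ => sumL_mono _ fun lh _ =>
          sumL_mono _ fun l₂ _ => ?_
        rw [sumL_mul]
        apply mul_le_mul_of_nonneg_left _ (ind_nonneg _)
        exact sumL_append_le P (X y) k₃ _ _ _ _
    _ ≤ sumL t₁ (fun l₀ => (∑ q₁, ∑ q₃, Psi P o f a e X t₁ k₁ (t₁ + k₁ + kh) k₂ q₁ q₃ y) *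
        A l₀) := sumL_mono _ fun l₀ h0 => stepE l₀ h0
    _ = (∑ q₁, ∑ q₃, Psi P o f a e X t₁ k₁ (t₁ + k₁ + kh) k₂ q₁ q₃ y) * sumL t₁ A := by
        rw [← sumL_mul]
    _ ≤ (∑ q₁, ∑ q₃, Psi P o f a e X t₁ k₁ (t₁ + k₁ + kh) k₂ q₁ q₃ y) * 1 := by
        apply mul_le_mul_of_nonneg_left _
          (sum_nonneg fun q₁ _ => sum_nonneg fun q₃ _ => hPsi0 q₁ q₃)
        have h1 := P.sumL_nsq_amp_le (X y) t₁ 0 P.start [] P.init
        have h2 : nsq P.init = 1 := P.norm_init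
        rw [h2] at h1
        exact h1
    _ = _ := mul_one _

/-- The quadruples of lengths. -/
def box (K : ℕ) : Finset (ℕ × ℕ × ℕ × ℕ) :=
  range (K + 1) ×ˢ range (K + 1) ×ˢ range (K + 1) ×ˢ range (K + 1)

theorem card_box (K : ℕ) : #(box K) = (K + 1) ^ 4 := by
  unfold box
  simp only [card_product, card_range]
  ring

/-- **The union bound.** -/
theorem success_le (o : Fin n → ω) (f : (Fin n → ZMod 2) → Fin n → Bool) {a e T K : ℕ}
    (ha : 2 ≤ a) (hae : (6 * T + a) * (3 * e - 1) < n * a)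
    (X : (Fin n → ZMod 2) → ι → Bool) (y : Fin n → ZMod 2) (G : Set (ω × Bool) → Prop)
    (hG : ∀ O, G O → (∀ j, ∃ b, (o j, b) ∈ O) ∧ ∀ j b, (o j, b) ∈ O → b = f y j) :
    P.success (X y) K T G ≤ ∑ p ∈ box K, ∑ q₁, ∑ q₃,
      Psi P o f a e X p.1 p.2.1 (p.1 + p.2.1 + p.2.2.1) p.2.2.2 q₁ q₃ y := by
  have h0 : P.success (X y) K T G = sumL K (fun l =>
      ind ((P.go 0 P.start [] l).isSome ∧ (P.cst 0 P.start [] l ≤ T ∧ G (P.em 0 P.start [] l))) *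
        nsq (P.amp (X y) 0 P.start [] P.init l)) := by
    unfold QM.success
    rw [P.prob_eq]
  rw [h0]
  have key : ∀ l : List P.Out, l.length = K →
      ind ((P.go 0 P.start [] l).isSome ∧ (P.cst 0 P.start [] l ≤ T ∧ G (P.em 0 P.start [] l))) ≤
      ∑ p ∈ box K, if p.1 + (p.2.1 + (p.2.2.1 + p.2.2.2)) ≤ K then
        ind (∃ l₀ l₁ lh l₂ l₃ : List P.Out, l = l₀ ++ (l₁ ++ (lh ++ (l₂ ++ l₃))) ∧
          l₀.length = p.1 ∧ l₁.length = p.2.1 ∧ lh.length = p.2.2.1 ∧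
          l₂.length = p.2.2.2 ∧ PC P o f a e X y l₀ l₁ lh l₂) else 0 := by
    intro l hl
    by_cases hc : (P.go 0 P.start [] l).isSome ∧
        (P.cst 0 P.start [] l ≤ T ∧ G (P.em 0 P.start [] l))
    · rw [ind_true hc]
      obtain ⟨hc1, hc2, hc3⟩ := hc
      obtain ⟨g1, g2⟩ := hG _ hc3
      have hvis : #(vis o (P.em 0 P.start [] l)) = n := by
        have : vis o (P.em 0 P.start [] l) = univ := by
          ext j
          rw [mem_vis]
          simp [g1 j]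
        rw [this, card_univ, Fintype.card_fin]
      obtain ⟨l₀, l₁, lh, l₂, l₃, q₁, τ₁, q₃, hs, k1, k2, k3, k4, k5, k6, k7⟩ :=
        P.exists_piece o hc1 ha hc2 (g := 3 * e - 1) (by rw [hvis]; exact hae)
      have hlen : l₀.length + (l₁.length + (lh.length + (l₂.length + l₃.length))) = K := by
        rw [← hl, hs]
        simp only [List.length_append]
      refine le_trans (le_of_eq ?_) (single_le_sum (a := (l₀.length, l₁.length, lh.length,
        l₂.length)) (fun p _ => ?_) ?_)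
      · rw [if_pos (by simp only; omega), ind_true]
        refine ⟨l₀, l₁, lh, l₂, l₃, hs, rfl, rfl, rfl, rfl, q₁, τ₁, q₃, k1, k2 _, k3, k4 _, k5, ?_,
          ?_⟩
        · omega
        · intro j b hb
          exact g2 j b (k7 hb)
      · split_ifs
        · exact ind_nonneg _
        · exact le_rfl
      · unfold box
        simp only [mem_product, mem_range]
        omega
    · rw [ind_false hc]
      apply sum_nonneg
      intro p _
      split_ifs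
      · exact ind_nonneg _
      · exact le_rfl
  calc _ ≤ sumL K (fun l => ∑ p ∈ box K, (if p.1 + (p.2.1 + (p.2.2.1 + p.2.2.2)) ≤ K then
        ind (∃ l₀ l₁ lh l₂ l₃ : List P.Out, l = l₀ ++ (l₁ ++ (lh ++ (l₂ ++ l₃))) ∧
          l₀.length = p.1 ∧ l₁.length = p.2.1 ∧ lh.length = p.2.2.1 ∧
          l₂.length = p.2.2.2 ∧ PC P o f a e X y l₀ l₁ lh l₂) else 0) *
            nsq (P.amp (X y) 0 P.start [] P.init l)) := by
        refine sumL_mono _ fun l hl => ?_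
        rw [← sum_mul]
        exact mul_le_mul_of_nonneg_right (key l hl) (nsq_nonneg _)
    _ = ∑ p ∈ box K, sumL K (fun l => (if p.1 + (p.2.1 + (p.2.2.1 + p.2.2.2)) ≤ K then
        ind (∃ l₀ l₁ lh l₂ l₃ : List P.Out, l = l₀ ++ (l₁ ++ (lh ++ (l₂ ++ l₃))) ∧
          l₀.length = p.1 ∧ l₁.length = p.2.1 ∧ lh.length = p.2.2.1 ∧
          l₂.length = p.2.2.2 ∧ PC P o f a e X y l₀ l₁ lh l₂) else 0) *
            nsq (P.amp (X y) 0 P.start [] P.init l)) := by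
        rw [sumL_sum]
    _ ≤ _ := by
        refine sum_le_sum fun p _ => ?_
        by_cases hp : p.1 + (p.2.1 + (p.2.2.1 + p.2.2.2)) ≤ K
        · simp only [if_pos hp]
          obtain ⟨k₃, hk₃⟩ := Nat.exists_eq_add_of_le hp
          have e1 : K = p.1 + (p.2.1 + (p.2.2.1 + (p.2.2.2 + k₃))) := by omega
          rw [e1]
          exact class_le P o f a e X y p.1 p.2.1 p.2.2.1 p.2.2.2 k₃
        · simp only [if_neg hp, zero_mul, sumL_zero]
          exact sum_nonneg fun q₁ _ => sum_nonneg fun q₃ _ => Psi_nonneg _ _ _ _ _ _ _ _ _ _ _ _ _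

/-- **The average success probability.** -/
theorem sum_success_le {h : Sys n} (hE : Expands h) {a e T K : ℕ} (ha : 2 ≤ a)
    (hD : 2 * a * 2 ^ 22 ≤ n) (he : e ≤ a) (hae : (6 * T + a) * (3 * e - 1) < n * a)
    (κ : ι → Option (Row n)) (c : ι → Bool) (o : Fin n → ω)
    (f : (Fin n → ZMod 2) → Fin n → Bool) (hf : ∀ y y' j, f y' j = f y j → y' j = y j)
    (G : (Fin n → ZMod 2) → Set (ω × Bool) → Prop)
    (hG : ∀ y O, G y O → (∀ j, ∃ b, (o j, b) ∈ O) ∧ ∀ j b, (o j, b) ∈ O → b = f y j) :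
    (∑ y, P.success (inp κ c (rv h y)) K T (G y)) * 2 ^ e ≤
      (K + 1) ^ 4 * (Fintype.card P.Node * Fintype.card P.Reg) ^ 2 * 2 ^ n := by
  have h1 : ∑ y, P.success (inp κ c (rv h y)) K T (G y) ≤
      ∑ p ∈ box K, ∑ q₁, ∑ q₃, ∑ y, Psi P o f a e (fun y => inp κ c (rv h y)) p.1 p.2.1
        (p.1 + p.2.1 + p.2.2.1) p.2.2.2 q₁ q₃ y := by
    calc _ ≤ ∑ y, ∑ p ∈ box K, ∑ q₁, ∑ q₃, Psi P o f a e (fun y => inp κ c (rv h y)) p.1 p.2.1
            (p.1 + p.2.1 + p.2.2.1) p.2.2.2 q₁ q₃ y := sum_le_sum fun y _ =>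
          success_le P o f ha hae (fun y => inp κ c (rv h y)) y (G y) (hG y)
      _ = _ := by
          rw [sum_comm]
          refine sum_congr rfl fun p _ => ?_
          rw [sum_comm]
          refine sum_congr rfl fun q₁ _ => ?_
          rw [sum_comm]
  calc _ ≤ (∑ p ∈ box K, ∑ q₁, ∑ q₃, ∑ y, Psi P o f a e (fun y => inp κ c (rv h y)) p.1 p.2.1
        (p.1 + p.2.1 + p.2.2.1) p.2.2.2 q₁ q₃ y) * 2 ^ e :=
        mul_le_mul_of_nonneg_right h1 (by positivity)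
    _ = ∑ p ∈ box K, ∑ q₁, ∑ q₃, ((∑ y, Psi P o f a e (fun y => inp κ c (rv h y)) p.1 p.2.1
        (p.1 + p.2.1 + p.2.2.1) p.2.2.2 q₁ q₃ y) * 2 ^ e) := by
        simp only [sum_mul]
    _ ≤ ∑ _p ∈ box K, ∑ _q₁ : P.Node, ∑ _q₃ : P.Node,
        (Fintype.card P.Reg : ℝ) ^ 2 * 2 ^ n := by
        refine sum_le_sum fun p _ => sum_le_sum fun q₁ _ => sum_le_sum fun q₃ _ => ?_
        exact sum_Psi_le P hE hD he κ c o f hf _ _ _ _ _ _
    _ = _ := by
        simp only [sum_const, card_univ, nsmul_eq_mul, card_box]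
        push_cast
        ring

end

end Pool.Agent.Y602.QS
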